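import Pool.Agent.Lib.MP_009fd8_agU.Def

/-!
MP_009fd8_ag, 3-isogenies, leaf file: the places above 3 for the second side, the integral case.
-/

namespace Pool.Agent.MP009fd8U

/-- The case v s ≤ 1: d is congruent to a cube modulo 3 θ.

Proof. Put W = d X^3. Then W^2 - (2 a^3 - 9 a s + 27 b) W + (a^2 - 3 s)^3 = 0 (multiply h1 by X^3 and
use X Y = a^2 - 3 s), so v W ≤ 1. Put V = W - a^3. Then
V^2 + 9 a s V = 27 (b W - a^2 s^2 + s^3). If v (3 θ) < v V then v (27) = v (3 θ)^2 < (v V)^2 and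
v (9 a s V) ≤ v 9 v V ≤ v (3 θ) v V < (v V)^2 (as v 3 ≤ v θ), so v (V^2 + 9 a s V) = (v V)^2 > v 27, a
contradiction. So v V ≤ v (3 θ). Moreover W (Y^3 / d) = (X Y)^3 has valuation 1, v W ≤ 1 and
v (Y^3 / d) ≤ 1 (W' = Y^3 / d satisfies the same quadratic equation), so v W = 1, v X = 1, and
g = a / X works: d - (a / X)^3 = V / X^3. -/
theorem primary_of_small {F : Type*} [Field F] {Γ : Type*} [LinearOrderedCommGroupWithZero Γ]
    (v : Valuation F Γ) {θ a b d X Y s : F} (hθ : θ ^ 2 = -3) (h3 : v 3 < 1) (hd : v d = 1)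
    (ha : v a = 1) (hb : v b ≤ 1) (hsv : v s ≤ 1)
    (h1 : d ^ 2 * X ^ 3 + Y ^ 3 + (a ^ 3 - 27 * b) * d = 3 * a * d * X * Y)
    (hs : 3 * s = a ^ 2 - X * Y) : ∃ g, v (d - g ^ 3) ≤ v (3 * θ) := by
  have h3' : v 3 ≤ 1 := h3.le
  have hθ2 : v θ * v θ = v 3 := by
    rw [← map_mul, ← sq, hθ, Valuation.map_neg]
  have hθ1 : v θ ≤ 1 := by
    by_contra hc
    rw [not_le] at hc
    have h4 : (1 : Γ) < v θ * v θ := one_lt_mul_of_lt_of_le' hc hc.le
    rw [hθ2] at h4
    exact absurd h4 (not_lt.2 h3')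
  have h3θ : v 3 ≤ v θ := by
    rw [← hθ2]
    exact mul_le_of_le_one_left' hθ1
  have hXY : X * Y = a ^ 2 - 3 * s := by rw [hs]; ring
  -- natural numbers have valuation at most one
  have v9 : v 9 = v 3 * v 3 := by rw [← map_mul]; norm_num
  have v27 : v 27 = v (3 * θ) * v (3 * θ) := by
    have e : (27 : F) = -((3 * θ) * (3 * θ)) := by
      have : (3 * θ) * (3 * θ) = 9 * θ ^ 2 := by ring
      rw [this, hθ]; norm_num
    rw [e, Valuation.map_neg, map_mul v (3 * θ)]
  have v9' : v 9 ≤ 1 := by rw [v9]; exact mul_le_one' h3' h3'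
  have v3θ1 : v (3 * θ) ≤ 1 := by rw [map_mul]; exact mul_le_one' h3' hθ1
  have v27' : v 27 ≤ 1 := by rw [v27]; exact mul_le_one' v3θ1 v3θ1
  have v2' : v 2 ≤ 1 := by
    have e : (2 : F) = 1 + 1 := by norm_num
    rw [e]
    exact (v.map_add 1 1).trans (by rw [map_one, max_self])
  -- the quadratic equation of `W = d X ^ 3`
  obtain ⟨W, hW⟩ : ∃ W, W = d * X ^ 3 := ⟨_, rfl⟩
  obtain ⟨c, hc⟩ : ∃ c, c = 2 * a ^ 3 - 9 * a * s + 27 * b := ⟨_, rfl⟩
  have hquad : W * (c - W) = (a ^ 2 - 3 * s) ^ 3 := by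
    have e1 : (d ^ 2 * X ^ 3 + Y ^ 3 + (a ^ 3 - 27 * b) * d) * X ^ 3 =
        3 * a * d * X * Y * X ^ 3 := by rw [h1]
    have e2 : W ^ 2 + (X * Y) ^ 3 + (a ^ 3 - 27 * b) * W = 3 * a * W * (X * Y) := by
      rw [hW]
      linear_combination e1
    rw [hXY] at e2
    rw [hc]
    linear_combination -e2
  have hva3 : v (a ^ 3) = 1 := by rw [map_pow, ha, one_pow]
  have hva2 : v (a ^ 2) = 1 := by rw [map_pow, ha, one_pow]
  have hv3s : v (3 * s) < 1 := by
    rw [map_mul]
    exact lt_of_le_of_lt (mul_le_of_le_one_right' hsv) h3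
  have hunit : v (a ^ 2 - 3 * s) = 1 := by
    rw [Valuation.map_sub_eq_of_lt_left v (by rw [hva2]; exact hv3s), hva2]
  have hunit3 : v ((a ^ 2 - 3 * s) ^ 3) = 1 := by rw [map_pow, hunit, one_pow]
  have hvc : v c ≤ 1 := by
    rw [hc]
    refine (v.map_add _ _).trans (max_le ((v.map_sub _ _).trans (max_le ?_ ?_)) ?_)
    · rw [map_mul, hva3, mul_one]
      exact v2'
    · rw [map_mul, map_mul, ha, mul_one]
      exact mul_le_one' v9' hsv
    · rw [map_mul]
      exact mul_le_one' v27' hb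
  have hvW : v W ≤ 1 := by
    by_contra hcon
    rw [not_le] at hcon
    have h4 : v (c - W) = v W :=
      Valuation.map_sub_eq_of_lt_right v (lt_of_le_of_lt hvc hcon)
    have h5 : v W * v W = 1 := by rw [← hunit3, ← hquad, map_mul, h4]
    have h6 : (1 : Γ) < v W * v W := one_lt_mul_of_lt_of_le' hcon hcon.le
    rw [h5] at h6
    exact lt_irrefl _ h6
  have hvcW : v (c - W) ≤ 1 := (v.map_sub _ _).trans (max_le hvc hvW)
  have hvW1 : v W = 1 := by
    have h5 : v W * v (c - W) = 1 := by rw [← map_mul, hquad, hunit3]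
    refine le_antisymm hvW ?_
    rw [← h5]
    exact mul_le_of_le_one_right' hvcW
  have hvX : v X = 1 := by
    have h5 : v X ^ 3 = 1 := by
      rw [← map_pow, ← hvW1, hW, map_mul, hd, one_mul]
    exact (pow_eq_one_iff.1 h5).resolve_right (by norm_num)
  have hX : X ≠ 0 := by
    intro h
    rw [h, map_zero] at hvX
    exact zero_ne_one hvX
  -- the estimate of `V = W - a ^ 3`
  obtain ⟨V, hV⟩ : ∃ V, V = W - a ^ 3 := ⟨_, rfl⟩
  have hVe : V ^ 2 + 9 * a * s * V = 27 * (b * W - a ^ 2 * s ^ 2 + s ^ 3) := by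
    rw [hc] at hquad
    rw [hV]
    linear_combination -hquad
  have hvV : v V ≤ v (3 * θ) := by
    by_contra hcon
    rw [not_le] at hcon
    have hV0 : 0 < v V := lt_of_le_of_lt zero_le hcon
    have h27 : v 27 < v V * v V := by
      rw [v27]
      exact mul_lt_mul'' hcon hcon zero_le zero_le
    have h9 : v (9 * a * s * V) < v (V ^ 2) := by
      rw [map_pow, sq, map_mul, map_mul, map_mul, ha, mul_one]
      refine mul_lt_mul_of_pos_right ?_ hV0
      refine lt_of_le_of_lt (mul_le_of_le_one_right' hsv) (lt_of_le_of_lt ?_ hcon)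
      rw [v9, map_mul]
      exact mul_le_mul_right h3θ _
    have h10 : v (V ^ 2 + 9 * a * s * V) = v V * v V := by
      rw [Valuation.map_add_eq_of_lt_left v h9, map_pow, sq]
    have h11 : v (27 * (b * W - a ^ 2 * s ^ 2 + s ^ 3)) ≤ v 27 := by
      rw [map_mul]
      refine mul_le_of_le_one_right' ?_
      refine (v.map_add _ _).trans (max_le ((v.map_sub _ _).trans (max_le ?_ ?_)) ?_)
      · rw [map_mul]
        exact mul_le_one' hb hvW
      · rw [map_mul, hva2, one_mul, map_pow]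
        exact pow_le_one' hsv 2
      · rw [map_pow]
        exact pow_le_one' hsv 3
    rw [← hVe, h10] at h11
    exact absurd h27 (not_lt.2 h11)
  refine ⟨a / X, ?_⟩
  have e : d - (a / X) ^ 3 = V / X ^ 3 := by
    rw [hV, hW]
    field_simp
  rw [e, map_div₀, map_pow, hvX, one_pow, div_one]
  exact hvV

end Pool.Agent.MP009fd8U
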