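import Pool.Agent.Lib.MP_009fd8_agU.At3a
import Pool.Agent.Lib.MP_009fd8_agU.At3b

/-!
MP_009fd8_ag, 3-isogenies: the places above 3 for the second side.
-/

namespace Pool.Agent.MP009fd8U

/-- The places above 3: if C_d of the second side has a point then d is congruent to a cube
modulo 3 θ, and it is a cube if v b < 1.

Proof. If Z = 0 then d^2 X^3 + Y^3 = 0, X is not 0, d^2 = (-Y / X)^3 and d = (d X / (-Y))^3. If Z is
not 0 divide by Z, put s = (a^2 - X Y) / 3 and use the lemmas above. -/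
theorem primary_of_point {F : Type*} [Field F] {Γ : Type*} [LinearOrderedCommGroupWithZero Γ]
    (v : Valuation F Γ) (hens : Hens v) {θ a b d : F} (hθ : θ ^ 2 = -3) (h30 : (3 : F) ≠ 0)
    (h3 : v 3 < 1) (hd : v d = 1)
    (ha : v a = 1) (hb : v b ≤ 1) (h : HasPoint (3 * a) (a ^ 3 - 27 * b) d) :
    (∃ g, v (d - g ^ 3) ≤ v (3 * θ)) ∧ (v b < 1 → ∃ g, d = g ^ 3) := by
  have hd0 : d ≠ 0 := by
    rintro rfl
    rw [map_zero] at hd
    exact zero_ne_one hd
  have hD : a ^ 3 - 27 * b ≠ 0 := by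
    intro h0
    have e : (27 : F) = 3 * 3 * 3 := by norm_num
    have h27 : v 27 < 1 := by
      rw [e, map_mul, map_mul]
      exact mul_lt_one_of_lt_of_le (mul_lt_one_of_lt_of_le h3 h3.le) h3.le
    have h1 : v (a ^ 3) = 1 := by rw [map_pow, ha, one_pow]
    have h2 : a ^ 3 = 27 * b := by linear_combination h0
    rw [h2, map_mul] at h1
    exact absurd h1 (ne_of_lt (mul_lt_one_of_lt_of_le h27 hb))
  have exact_case : (∃ g, d = g ^ 3) →
      (∃ g, v (d - g ^ 3) ≤ v (3 * θ)) ∧ (v b < 1 → ∃ g, d = g ^ 3) := by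
    rintro ⟨g, hg⟩
    refine ⟨⟨g, ?_⟩, fun _ => ⟨g, hg⟩⟩
    rw [hg, sub_self, map_zero]
    exact zero_le
  obtain ⟨X, Y, Z, hne, h1⟩ := h
  by_cases hZ : Z = 0
  · subst hZ
    apply exact_case
    have h2 : d ^ 2 * X ^ 3 + Y ^ 3 = 0 := by linear_combination h1
    have hX : X ≠ 0 := by
      rintro rfl
      have hY : Y = 0 := (pow_eq_zero_iff (n := 3) (by norm_num)).1 (by linear_combination h2)
      rcases hne with h | h | h
      · exact h rfl
      · exact h hY
      · exact h rfl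
    have hY : Y ≠ 0 := by
      rintro rfl
      have : d ^ 2 * X ^ 3 = 0 := by linear_combination h2
      exact absurd this (mul_ne_zero (pow_ne_zero 2 hd0) (pow_ne_zero 3 hX))
    refine ⟨-(d * X) / Y, ?_⟩
    field_simp
    linear_combination h2
  · -- normalise Z = 1
    set x := X / Z with hx
    set y := Y / Z with hy
    have h2 : d ^ 2 * x ^ 3 + y ^ 3 + (a ^ 3 - 27 * b) * d = 3 * a * d * x * y := by
      rw [hx, hy]
      field_simp
      linear_combination h1
    have hs : 3 * ((a ^ 2 - x * y) / 3) = a ^ 2 - x * y := by field_simp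
    set s := (a ^ 2 - x * y) / 3
    by_cases hsv : v s ≤ 1
    · refine ⟨primary_of_small v hθ h3 hd ha hb hsv h2 hs, fun hb1 => ?_⟩
      obtain ⟨t, ht⟩ := root_of_small v hens ha hb1 hsv
      exact cube_of_root hd0 hD h2 hs ht
    · apply exact_case
      obtain ⟨t, ht⟩ := root_of_large v hens ha hb (not_le.mp hsv)
      exact cube_of_root hd0 hD h2 hs ht

end Pool.Agent.MP009fd8U
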