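import Pool.Agent.Lib.MP_009fd8_agU.Def

/-!
MP_009fd8_ag, 3-isogenies, leaf file: the places above 3 for the second side, roots.
-/

namespace Pool.Agent.MP009fd8U

/-- Hensel's lemma for monic cubic polynomials over a valued field. -/
def Hens {F : Type*} [Field F] {Γ : Type*} [LinearOrderedCommGroupWithZero Γ]
    (v : Valuation F Γ) : Prop :=
  ∀ r s t x0 : F, v r ≤ 1 → v s ≤ 1 → v t ≤ 1 → v x0 ≤ 1 →
    v (x0 ^ 3 + r * x0 ^ 2 + s * x0 + t) < 1 → v (3 * x0 ^ 2 + 2 * r * x0 + s) = 1 →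
      ∃ x, x ^ 3 + r * x ^ 2 + s * x + t = 0

/-- A root t of T^3 - a T^2 + s T - b, where 3 s = a^2 - X Y and (X, Y, 1) is a point of the covering
C_d of the second side, makes d a cube.

Proof. Put W = a - 3 t. Then d^2 X^3 + Y^3 + d W^3 - 3 d X Y W = -27 d (t^3 - a t^2 + s t - b) = 0,
and cube_of_norm applies, because X = Y = 0 is impossible. -/
theorem cube_of_root {F : Type*} [Field F] {a b d X Y s t : F}
    (hd : d ≠ 0) (hD : a ^ 3 - 27 * b ≠ 0)
    (h1 : d ^ 2 * X ^ 3 + Y ^ 3 + (a ^ 3 - 27 * b) * d = 3 * a * d * X * Y)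
    (hs : 3 * s = a ^ 2 - X * Y) (ht : t ^ 3 - a * t ^ 2 + s * t - b = 0) :
    ∃ r, d = r ^ 3 := by
  refine cube_of_norm (d := d) (X := X) (Y := Y) (W := a - 3 * t) ?_ ?_
  · by_contra hc
    push Not at hc
    obtain ⟨hX, hY, -⟩ := hc
    rw [hX, hY] at h1
    exact mul_ne_zero hD hd (by linear_combination h1)
  · linear_combination h1 - 27 * d * ht + 9 * d * t * hs

/-- The case of large s: T^3 - a T^2 + s T - b has a root.

Proof. If b = 0 take t = 0. Otherwise U^3 - U^2 + (a b / s^2) U - b^2 / s^3 has, by Hens with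
x0 = 1, a root U; U is not 0 (its constant term is not 0) and t = b / (s U) is a root. -/
theorem root_of_large {F : Type*} [Field F] {Γ : Type*} [LinearOrderedCommGroupWithZero Γ]
    (v : Valuation F Γ) (hens : Hens v) {a b s : F} (ha : v a = 1) (hb : v b ≤ 1) (hs : 1 < v s) :
    ∃ t : F, t ^ 3 - a * t ^ 2 + s * t - b = 0 := by
  by_cases hb0 : b = 0
  · exact ⟨0, by rw [hb0]; ring⟩
  have hs0 : s ≠ 0 := by
    rintro rfl
    rw [map_zero] at hs
    exact absurd hs (not_lt.2 zero_le_one)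
  have hvs : v s ≠ 0 := (Valuation.ne_zero_iff v).2 hs0
  have hs2 : 1 < v s ^ 2 := one_lt_pow₀ hs (by norm_num)
  have hs3 : 1 < v s ^ 3 := one_lt_pow₀ hs (by norm_num)
  have e1 : v (a * b / s ^ 2) < 1 := by
    rw [map_div₀, map_mul, map_pow, ha, one_mul, div_lt_one₀ (zero_lt_one.trans hs2)]
    exact lt_of_le_of_lt hb hs2
  have e2 : v (-(b ^ 2 / s ^ 3)) < 1 := by
    rw [Valuation.map_neg, map_div₀, map_pow, map_pow, div_lt_one₀ (zero_lt_one.trans hs3)]
    exact lt_of_le_of_lt (pow_le_one₀ zero_le hb) hs3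
  obtain ⟨U, hU⟩ := hens (-1) (a * b / s ^ 2) (-(b ^ 2 / s ^ 3)) 1
    (by rw [Valuation.map_neg, map_one]) e1.le e2.le (by rw [map_one]) (by
      have e : (1 : F) ^ 3 + -1 * 1 ^ 2 + a * b / s ^ 2 * 1 + -(b ^ 2 / s ^ 3) =
          a * b / s ^ 2 + -(b ^ 2 / s ^ 3) := by ring
      rw [e]
      exact Valuation.map_add_lt v e1 e2) (by
      have e : 3 * (1 : F) ^ 2 + 2 * -1 * 1 + a * b / s ^ 2 = 1 + a * b / s ^ 2 := by ring
      rw [e]
      exact Valuation.map_one_add_of_lt v e1)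
  have hU0 : U ≠ 0 := by
    rintro rfl
    have h1 : b ^ 2 / s ^ 3 = 0 := by linear_combination -hU
    exact (div_ne_zero (pow_ne_zero 2 hb0) (pow_ne_zero 3 hs0)) h1
  refine ⟨b / (s * U), ?_⟩
  have h2 : (b / (s * U)) ^ 3 - a * (b / (s * U)) ^ 2 + s * (b / (s * U)) - b =
      -(b / U ^ 3) * (U ^ 3 + -1 * U ^ 2 + a * b / s ^ 2 * U + -(b ^ 2 / s ^ 3)) := by
    field_simp
    ring
  rw [h2, hU, mul_zero]

/-- The case v b < 1, v s ≤ 1: T^3 - a T^2 + s T - b has a root (x0 = 0 if v s = 1, x0 = a if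
v s < 1; the derivative at x0 = a is a^2 + s). -/
theorem root_of_small {F : Type*} [Field F] {Γ : Type*} [LinearOrderedCommGroupWithZero Γ]
    (v : Valuation F Γ) (hens : Hens v) {a b s : F} (ha : v a = 1) (hb : v b < 1) (hs : v s ≤ 1) :
    ∃ t : F, t ^ 3 - a * t ^ 2 + s * t - b = 0 := by
  have hs' : (∃ x, x ^ 3 + -a * x ^ 2 + s * x + -b = 0) →
      ∃ t : F, t ^ 3 - a * t ^ 2 + s * t - b = 0 := by
    rintro ⟨x, hx⟩
    exact ⟨x, by linear_combination hx⟩
  have hna : v (-a) ≤ 1 := by rw [Valuation.map_neg, ha]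
  have hnb : v (-b) < 1 := by rwa [Valuation.map_neg]
  apply hs'
  rcases hs.lt_or_eq with h1 | h1
  · refine hens (-a) s (-b) a hna hs hnb.le ha.le ?_ ?_
    · have e : a ^ 3 + -a * a ^ 2 + s * a + -b = s * a + -b := by ring
      rw [e]
      refine Valuation.map_add_lt v ?_ hnb
      rw [map_mul, ha, mul_one]
      exact h1
    · have e : 3 * a ^ 2 + 2 * -a * a + s = s + a ^ 2 := by ring
      have e2 : v (a ^ 2) = 1 := by rw [map_pow, ha, one_pow]
      rw [e, Valuation.map_add_eq_of_lt_right v (by rw [e2]; exact h1), e2]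
  · refine hens (-a) s (-b) 0 hna hs hnb.le (by rw [map_zero]; exact zero_le) ?_ ?_
    · have e : (0 : F) ^ 3 + -a * 0 ^ 2 + s * 0 + -b = -b := by ring
      rw [e]
      exact hnb
    · have e : 3 * (0 : F) ^ 2 + 2 * -a * 0 + s = s := by ring
      rw [e, h1]

end Pool.Agent.MP009fd8U
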