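import Pool.Agent.Lib.MP_009fd8_agU.Def

/-!
MP_009fd8_ag, 3-isogenies, leaf file: the classes with a rational point form a group.
-/

namespace Pool.Agent.MP009fd8U

variable {F : Type*} [Field F]

/-- Exchange of X and Y. -/
theorem HasPoint.inv {A B d : F} (hd : d ≠ 0) (h : HasPoint A B d) : HasPoint A B d⁻¹ := by
  obtain ⟨X, Y, Z, h0, h1⟩ := h
  refine ⟨Y, X, Z, ?_, ?_⟩
  · rcases h0 with h0 | h0 | h0
    · exact Or.inr (Or.inl h0)
    · exact Or.inl h0
    · exact Or.inr (Or.inr h0)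
  · have h2 : (d⁻¹) ^ 2 * (d ^ 2 * X ^ 3 + Y ^ 3 + B * d * Z ^ 3) =
        (d⁻¹) ^ 2 * (A * d * X * Y * Z) := by rw [h1]
    have h3 : d⁻¹ * d = 1 := inv_mul_cancel₀ hd
    linear_combination h2 - (d⁻¹ * d + 1) * X ^ 3 * h3 - d⁻¹ * (B * Z ^ 3) * h3 +
      d⁻¹ * (A * X * Y * Z) * h3

/-- An affine point (x, y), y ≠ 0, of y^2 + A x y + B y = x^3 gives a point (1, -x, 1) on C_y. -/
theorem hasPoint_of_affine {A B x y : F} (h : y ^ 2 + A * x * y + B * y = x ^ 3) :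
    HasPoint A B y := ⟨1, -x, 1, Or.inl one_ne_zero, by linear_combination h⟩

private theorem closure_key {A B x1 x2 y1 y2 l n : F} (hx1 : x1 ≠ 0) (hx2 : x2 ≠ 0)
    (hy1 : y1 ≠ 0) (hy2 : y2 ≠ 0) (e1 : y1 = l * x1 + n) (e2 : y2 = l * x2 + n)
    (h2 : x1 * x2 + (x1 + x2) * (l ^ 2 + A * l - x1 - x2) = -(2 * l * n + A * n + B * l))
    (h3 : x1 * x2 * (l ^ 2 + A * l - x1 - x2) = n ^ 2 + B * n) : HasPoint A B (y1 * y2) := by
  by_cases hn : n = 0
  · subst hn
    have h4 : l ^ 2 + A * l - x1 - x2 = 0 := by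
      have h5 : x1 * x2 * (l ^ 2 + A * l - x1 - x2) = 0 := by rw [h3]; ring
      exact (mul_eq_zero.1 h5).resolve_left (mul_ne_zero hx1 hx2)
    have h5 : x1 * x2 = -(B * l) := by linear_combination h2 - (x1 + x2) * h4
    have hl : l ≠ 0 := by
      rintro rfl
      apply hy1
      rw [e1]
      ring
    have h6 : y1 * y2 = B * (-l) ^ 3 := by
      rw [e1, e2]
      linear_combination l ^ 2 * h5
    rw [h6]
    exact (hasPoint_B A B).mul_cube (neg_ne_zero.2 hl)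
  · have h4 : y1 * y2 * (l * (l ^ 2 + A * l - x1 - x2) + n) = n ^ 3 := by
      rw [e1, e2]
      linear_combination l ^ 3 * h3 + l ^ 2 * n * h2
    have hy3 : l * (l ^ 2 + A * l - x1 - x2) + n ≠ 0 := by
      intro h5
      rw [h5, mul_zero] at h4
      exact hn ((pow_eq_zero_iff (by norm_num)).1 h4.symm)
    have h5 : HasPoint A B (l * (l ^ 2 + A * l - x1 - x2) + n) := by
      refine hasPoint_of_affine (x := l ^ 2 + A * l - x1 - x2) ?_
      linear_combination (l ^ 2 + A * l - x1 - x2) * h2 - h3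
    have h6 := (h5.inv hy3).mul_cube hn
    have h7 : (l * (l ^ 2 + A * l - x1 - x2) + n)⁻¹ * n ^ 3 = y1 * y2 := by
      rw [← h4, mul_comm, mul_assoc, mul_inv_cancel₀ hy3, mul_one]
    rwa [h7] at h6

private theorem closure_affine {A B x1 x2 y1 y2 : F} (hx1 : x1 ≠ 0) (hx2 : x2 ≠ 0)
    (hy1 : y1 ≠ 0) (hy2 : y2 ≠ 0) (h1 : y1 ^ 2 + A * x1 * y1 + B * y1 = x1 ^ 3)
    (h2 : y2 ^ 2 + A * x2 * y2 + B * y2 = x2 ^ 3) : HasPoint A B (y1 * y2) := by
  by_cases hx : x1 = x2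
  · subst hx
    by_cases hy : y1 = y2
    · subst hy
      by_cases hw : 2 * y1 + A * x1 + B = 0
      · have h3 : y1 * y1 = 1 * (-x1) ^ 3 := by
          linear_combination y1 * hw - h1
        rw [h3]
        exact (hasPoint_one A B).mul_cube (neg_ne_zero.2 hx1)
      · obtain ⟨l, hl⟩ : ∃ l, l * (2 * y1 + A * x1 + B) = 3 * x1 ^ 2 - A * y1 :=
          ⟨(3 * x1 ^ 2 - A * y1) / (2 * y1 + A * x1 + B), div_mul_cancel₀ _ hw⟩
        obtain ⟨n, hn⟩ : ∃ n, y1 = l * x1 + n := ⟨y1 - l * x1, by ring⟩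
        refine closure_key hx1 hx2 hy1 hy2 hn hn ?_ ?_
        · rw [hn] at hl
          linear_combination hl
        · rw [hn] at hl h1
          linear_combination x1 * hl - h1
    · have h3 : (y1 - y2) * (y1 + y2 + A * x1 + B) = 0 := by linear_combination h1 - h2
      have h4 : y1 + y2 + A * x1 + B = 0 :=
        (mul_eq_zero.1 h3).resolve_left (sub_ne_zero.2 hy)
      have h5 : y1 * y2 = 1 * (-x1) ^ 3 := by linear_combination y1 * h4 - h1
      rw [h5]
      exact (hasPoint_one A B).mul_cube (neg_ne_zero.2 hx1)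
  · have hx' : x2 - x1 ≠ 0 := sub_ne_zero.2 (Ne.symm hx)
    obtain ⟨l, hl⟩ : ∃ l, l * (x2 - x1) = y2 - y1 :=
      ⟨(y2 - y1) / (x2 - x1), div_mul_cancel₀ _ hx'⟩
    obtain ⟨n, hn⟩ : ∃ n, y1 = l * x1 + n := ⟨y1 - l * x1, by ring⟩
    have hn2 : y2 = l * x2 + n := by linear_combination (-1 : F) * hl + hn
    rw [hn] at h1
    rw [hn2] at h2
    have h3 : (x2 - x1) * (x1 * x2 + (x1 + x2) * (l ^ 2 + A * l - x1 - x2) +
        (2 * l * n + A * n + B * l)) = 0 := by linear_combination h2 - h1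
    have h4 : x1 * x2 + (x1 + x2) * (l ^ 2 + A * l - x1 - x2) +
        (2 * l * n + A * n + B * l) = 0 := (mul_eq_zero.1 h3).resolve_left hx'
    refine closure_key hx1 hx2 hy1 hy2 hn hn2 ?_ ?_
    · linear_combination h4
    · linear_combination x1 * h4 - h1

private theorem closure_div_B {A B d : F} (hB : B ≠ 0) (hd : d ≠ 0) (h : HasPoint A B d) :
    HasPoint A B (B⁻¹ * d) := by
  have h1 := ((h.mul_B hB hd).mul_B hB (mul_ne_zero hB hd)).mul_cube (inv_ne_zero hB)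
  have h2 : B * (B * d) * B⁻¹ ^ 3 = B⁻¹ * d := by field_simp
  rwa [h2] at h1

private theorem closure_cases {A B d : F} (hB : B ≠ 0) (hd : d ≠ 0) (h : HasPoint A B d) :
    (∃ r, r ≠ 0 ∧ d = r ^ 3) ∨ (∃ r, r ≠ 0 ∧ d = B⁻¹ * r ^ 3) ∨ (∃ r, r ≠ 0 ∧ d = B * r ^ 3) ∨
      ∃ x y r, x ≠ 0 ∧ y ≠ 0 ∧ r ≠ 0 ∧ d = y * r ^ 3 ∧ y ^ 2 + A * x * y + B * y = x ^ 3 := by
  obtain ⟨X, Y, Z, h0, h1⟩ := h
  by_cases hZ : Z = 0
  · left
    subst hZ
    have h2 : d ^ 2 * X ^ 3 + Y ^ 3 = 0 := by linear_combination h1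
    have hX : X ≠ 0 := by
      rintro rfl
      have hY : Y ^ 3 = 0 := by linear_combination h2
      have hY0 : Y = 0 := (pow_eq_zero_iff (by norm_num)).1 hY
      rcases h0 with h | h | h
      · exact h rfl
      · exact h hY0
      · exact h rfl
    have hY : Y ≠ 0 := by
      rintro rfl
      have h3 : d ^ 2 * X ^ 3 = 0 := by linear_combination h2
      exact mul_ne_zero (pow_ne_zero 2 hd) (pow_ne_zero 3 hX) h3
    refine ⟨-(d * X) / Y, div_ne_zero (neg_ne_zero.2 (mul_ne_zero hd hX)) hY, ?_⟩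
    rw [div_pow, eq_div_iff (pow_ne_zero 3 hY)]
    linear_combination d * h2
  · by_cases hX : X = 0
    · right; left
      subst hX
      have h2 : Y ^ 3 + B * d * Z ^ 3 = 0 := by linear_combination h1
      have hY : Y ≠ 0 := by
        rintro rfl
        have h3 : B * d * Z ^ 3 = 0 := by linear_combination h2
        exact mul_ne_zero (mul_ne_zero hB hd) (pow_ne_zero 3 hZ) h3
      refine ⟨-Y / Z, div_ne_zero (neg_ne_zero.2 hY) hZ, ?_⟩
      have h3 : (-Y / Z) ^ 3 = B * d := by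
        rw [div_pow, div_eq_iff (pow_ne_zero 3 hZ)]
        linear_combination (-1 : F) * h2
      rw [h3, ← mul_assoc, inv_mul_cancel₀ hB, one_mul]
    · by_cases hY : Y = 0
      · right; right; left
        subst hY
        have h2 : d * (d * X ^ 3 + B * Z ^ 3) = 0 := by linear_combination h1
        have h3 : d * X ^ 3 + B * Z ^ 3 = 0 := (mul_eq_zero.1 h2).resolve_left hd
        refine ⟨-Z / X, div_ne_zero (neg_ne_zero.2 hZ) hX, ?_⟩
        rw [div_pow, ← mul_div_assoc, eq_div_iff (pow_ne_zero 3 hX)]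
        linear_combination h3
      · right; right; right
        refine ⟨-(X * Y) / Z ^ 2, d * X ^ 3 / Z ^ 3, Z / X,
          div_ne_zero (neg_ne_zero.2 (mul_ne_zero hX hY)) (pow_ne_zero 2 hZ),
          div_ne_zero (mul_ne_zero hd (pow_ne_zero 3 hX)) (pow_ne_zero 3 hZ),
          div_ne_zero hZ hX, ?_, ?_⟩
        · field_simp
        · field_simp
          linear_combination h1

/-- The classes with a rational point form a group.

Proof. Let E : y^2 + A x y + B y = x^3. A point (X, Y, Z) of C_d with Z ≠ 0 gives the point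
(x, y) = (-X Y / Z^2, d X^3 / Z^3) of E.
(0) If Z = 0 then d is a cube. If Z ≠ 0 and X = 0 then d = -Y^3 / (B Z^3), so B d is a cube; if Z ≠ 0
and Y = 0 then d X^3 = -B Z^3, so d / B is a cube. In these three cases use mul_cube, mul_B
(d / B^(-1): B * (B * d) with B^3 a cube).
(1) So let (x1, y1), (x2, y2) be points of E with x1, x2, y1, y2 ≠ 0 and y_i = d_i times a cube. It is
enough to see HasPoint A B (y1 * y2) or HasPoint A B (y1 * y2)^(-1).
(2) x1 ≠ x2: l = (y2 - y1) / (x2 - x1), n = y1 - l x1. The third point on the line is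
x3 = l^2 + A l - x1 - x2, y3 = l x3 + n, and y1 y2 y3 = n^3. If n ≠ 0: HasPoint A B y3 by
hasPoint_of_affine, y3 = n^3 / (y1 y2). If n = 0: y_i = l x_i and x1 x2 = -B l, y1 y2 = -B l^3.
(3) x1 = x2, y1 ≠ y2: y1 y2 = -x1^3.
(4) x1 = x2, y1 = y2: with w = 2 y1 + A x1 + B: if w = 0 then y1^2 = -x1^3; if w ≠ 0 the tangent line
l = (3 x1^2 - A y1) / w, n = y1 - l x1 works as in (2) with y1^2 y3 = n^3. -/
theorem HasPoint.mul {A B d1 d2 : F} (hB : B ≠ 0) (h1 : d1 ≠ 0) (h2 : d2 ≠ 0)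
    (hp1 : HasPoint A B d1) (hp2 : HasPoint A B d2) : HasPoint A B (d1 * d2) := by
  have key : ∀ e1 e2 : F, e2 ≠ 0 → HasPoint A B e2 →
      ((∃ r, r ≠ 0 ∧ e1 = r ^ 3) ∨ (∃ r, r ≠ 0 ∧ e1 = B⁻¹ * r ^ 3) ∨
        (∃ r, r ≠ 0 ∧ e1 = B * r ^ 3)) → HasPoint A B (e1 * e2) := by
    intro e1 e2 he2 hp h
    rcases h with ⟨r, hr, rfl⟩ | ⟨r, hr, rfl⟩ | ⟨r, hr, rfl⟩
    · have h := hp.mul_cube hr
      rwa [mul_comm] at h
    · have h := (closure_div_B hB he2 hp).mul_cube hr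
      have h3 : B⁻¹ * e2 * r ^ 3 = B⁻¹ * r ^ 3 * e2 := by ring
      rwa [h3] at h
    · have h := (hp.mul_B hB he2).mul_cube hr
      have h3 : B * e2 * r ^ 3 = B * r ^ 3 * e2 := by ring
      rwa [h3] at h
  have c1 := closure_cases hB h1 hp1
  have c2 := closure_cases hB h2 hp2
  rw [← or_assoc, ← or_assoc] at c1 c2
  rcases c1 with c1 | ⟨x1, y1, r1, hx1, hy1, hr1, rfl, e1⟩
  · exact key d1 d2 h2 hp2 (by rwa [or_assoc] at c1)
  · rcases c2 with c2 | ⟨x2, y2, r2, hx2, hy2, hr2, rfl, e2⟩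
    · have h := key d2 (y1 * r1 ^ 3) h1 hp1 (by rwa [or_assoc] at c2)
      rwa [mul_comm] at h
    · have h := (closure_affine hx1 hx2 hy1 hy2 e1 e2).mul_cube (mul_ne_zero hr1 hr2)
      have h3 : y1 * y2 * (r1 * r2) ^ 3 = y1 * r1 ^ 3 * (y2 * r2 ^ 3) := by ring
      rwa [h3] at h

/-- Hence all classes generated by classes with points have points. -/
theorem hasPoint_of_list {A B : F} (hB : B ≠ 0) {S : Set F}
    (hS : ∀ g ∈ S, g ≠ 0 ∧ HasPoint A B g) {l : List F} (hl : ∀ x ∈ l, x ∈ S) {w : F}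
    (hw : w ≠ 0) : HasPoint A B (l.prod * w ^ 3) := by
  refine HasPoint.mul_cube hw ?_
  have key : l.prod ≠ 0 ∧ HasPoint A B l.prod := by
    induction l with
    | nil =>
      rw [List.prod_nil]
      exact ⟨one_ne_zero, hasPoint_one A B⟩
    | cons a l ih =>
      rw [List.prod_cons]
      have ih' := ih fun x hx => hl x (List.mem_cons_of_mem _ hx)
      have ha := hS a (hl a List.mem_cons_self)
      exact ⟨mul_ne_zero ha.1 ih'.1, HasPoint.mul hB ha.1 ih'.1 ha.2 ih'.2⟩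
  exact key.2

end Pool.Agent.MP009fd8U
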