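import Mathlib

/-!
MP_009fd8_ag, descent by 3-isogenies on the curves y^2 + a x y + b y = x^3 over number fields:
definitions and the algebra of the coverings.
-/

namespace Pool.Agent.MP009fd8U

open IsDedekindDomain NumberField

/-- The covering d X^3 + d^(-1) Y^3 + B Z^3 = A X Y Z of the curve y^2 + A x y + B y = x^3
(y = d (X/Z)^3, x = -X Y / Z^2) has a point over the field F (with the equation multiplied
by d). -/
def HasPoint {F : Type*} [Field F] (A B d : F) : Prop :=
  ∃ X Y Z : F, (X ≠ 0 ∨ Y ≠ 0 ∨ Z ≠ 0) ∧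
    d ^ 2 * X ^ 3 + Y ^ 3 + B * d * Z ^ 3 = A * d * X * Y * Z

/-- The covering of class d of y^2 + A x y + B y = x^3 has a point over the completion of K at
every finite place (it always has points over the real and the complex numbers). -/
def LocSol (K : Type*) [Field K] [NumberField K] (A B d : K) : Prop :=
  ∀ v : HeightOneSpectrum (𝓞 K),
    HasPoint (algebraMap K (v.adicCompletion K) A) (algebraMap K (v.adicCompletion K) B)
      (algebraMap K (v.adicCompletion K) d)

/-- d is a product of finitely many elements of S (repetitions allowed) and of a nonzero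
cube. -/
def InClasses {F : Type*} [Field F] (S : Set F) (d : F) : Prop :=
  ∃ (l : List F) (w : F), (∀ x ∈ l, x ∈ S) ∧ w ≠ 0 ∧ d = l.prod * w ^ 3

/-- Every nonzero d satisfying P is a product of finitely many elements of S (repetitions
allowed) and of a nonzero cube. -/
def Generates {F : Type*} [Field F] (S : Set F) (P : F → Prop) : Prop :=
  ∀ d : F, d ≠ 0 → P d → InClasses S d

variable {K : Type*} [Field K] [NumberField K]

/-- d is a cube in the completion of K at v. -/
def CubeAt (v : HeightOneSpectrum (𝓞 K)) (d : K) : Prop :=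
  ∃ g : v.adicCompletion K, algebraMap K (v.adicCompletion K) d = g ^ 3

/-- d is congruent to a cube modulo 3 θ in the completion of K at v: d = g^3 (1 + 3 θ x) with
x integral or d = g^3. (For v above 3: the cube root of d generates an unramified extension.) -/
def PrimaryAt (v : HeightOneSpectrum (𝓞 K)) (θ d : K) : Prop :=
  ∃ g : v.adicCompletion K, Valued.v (algebraMap K (v.adicCompletion K) d - g ^ 3) ≤
    Valued.v (algebraMap K (v.adicCompletion K) (3 * θ * d))

/-- First explicit group: the valuation of d is divisible by 3 outside b, and d is a cube in the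
completions at the v dividing a^3 - 27 b but neither b nor 3. -/
def GroupA (a b : 𝓞 K) (d : K) : Prop :=
  (∀ v : HeightOneSpectrum (𝓞 K), b ∉ v.asIdeal → ∃ w, v.valuation K d = w ^ 3) ∧
    ∀ v : HeightOneSpectrum (𝓞 K), (3 : 𝓞 K) ∉ v.asIdeal → b ∉ v.asIdeal →
      a ^ 3 - 27 * b ∈ v.asIdeal → CubeAt v d

/-- Second explicit group: the valuation of d is divisible by 3 outside a^3 - 27 b, d is a cube
in the completions at the v dividing b but not a^3 - 27 b, and d is congruent to a cube modulo
3 θ in the completions at the v dividing 3 but not a. -/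
def GroupB (θ a b : 𝓞 K) (d : K) : Prop :=
  (∀ v : HeightOneSpectrum (𝓞 K), a ^ 3 - 27 * b ∉ v.asIdeal →
    ∃ w, v.valuation K d = w ^ 3) ∧
  (∀ v : HeightOneSpectrum (𝓞 K), a ^ 3 - 27 * b ∉ v.asIdeal → b ∈ v.asIdeal → CubeAt v d) ∧
    ∀ v : HeightOneSpectrum (𝓞 K), (3 : 𝓞 K) ∈ v.asIdeal → a ∉ v.asIdeal →
      PrimaryAt v (algebraMap (𝓞 K) K θ) d

/-- The ideal generated by x is the unit ideal or a power, with exponent prime to 3, of one
prime ideal. -/
def OnePlace (x : 𝓞 K) : Prop :=
  ∀ v : HeightOneSpectrum (𝓞 K), x ∈ v.asIdeal →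
    (¬ ∃ w, v.valuation K (algebraMap (𝓞 K) K x) = w ^ 3) ∧
      ∀ w : HeightOneSpectrum (𝓞 K), x ∈ w.asIdeal → w = v

section Alg

variable {F : Type*} [Field F]

theorem HasPoint.map {G : Type*} [Field G] (f : F →+* G) {A B d : F} (h : HasPoint A B d) :
    HasPoint (f A) (f B) (f d) := by
  obtain ⟨X, Y, Z, h0, h1⟩ := h
  refine ⟨f X, f Y, f Z, ?_, ?_⟩
  · rcases h0 with h0 | h0 | h0
    · exact Or.inl ((map_ne_zero f).2 h0)
    · exact Or.inr (Or.inl ((map_ne_zero f).2 h0))
    · exact Or.inr (Or.inr ((map_ne_zero f).2 h0))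
  · have h2 := congrArg f h1
    simpa using h2

/-- Rescaling by cubes. -/
theorem HasPoint.of_mul_cube {A B d r : F} (hr : r ≠ 0) (h : HasPoint A B (d * r ^ 3)) :
    HasPoint A B d := by
  obtain ⟨X, Y, Z, h0, h1⟩ := h
  refine ⟨r ^ 2 * X, Y, r * Z, ?_, ?_⟩
  · rcases h0 with h0 | h0 | h0
    · exact Or.inl (mul_ne_zero (pow_ne_zero 2 hr) h0)
    · exact Or.inr (Or.inl h0)
    · exact Or.inr (Or.inr (mul_ne_zero hr h0))
  · linear_combination h1

theorem HasPoint.mul_cube {A B d r : F} (hr : r ≠ 0) (h : HasPoint A B d) :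
    HasPoint A B (d * r ^ 3) := by
  refine HasPoint.of_mul_cube (r := r⁻¹) (inv_ne_zero hr) ?_
  have h1 : d * r ^ 3 * r⁻¹ ^ 3 = d := by field_simp
  rwa [h1]

/-- Cyclic permutation: translation by the torsion point (0, 0). -/
theorem HasPoint.mul_B {A B d : F} (hB : B ≠ 0) (hd : d ≠ 0) (h : HasPoint A B d) :
    HasPoint A B (B * d) := by
  obtain ⟨X, Y, Z, h0, h1⟩ := h
  refine ⟨Y, B * d * Z, d * X, ?_, ?_⟩
  · rcases h0 with h0 | h0 | h0
    · exact Or.inr (Or.inr (mul_ne_zero hd h0))
    · exact Or.inl h0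
    · exact Or.inr (Or.inl (mul_ne_zero (mul_ne_zero hB hd) h0))
  · linear_combination (B ^ 2 * d ^ 2) * h1

theorem hasPoint_one (A B : F) : HasPoint A B 1 :=
  ⟨1, -1, 0, Or.inl one_ne_zero, by ring⟩

theorem hasPoint_B (A B : F) : HasPoint A B B :=
  ⟨1, 0, -1, Or.inl one_ne_zero, by ring⟩

/-- The norm form of F(d^(1/3)): if it is isotropic then d is a cube. -/
theorem cube_of_norm {d X Y W : F} (hne : X ≠ 0 ∨ Y ≠ 0 ∨ W ≠ 0)
    (h : d ^ 2 * X ^ 3 + Y ^ 3 + d * W ^ 3 - 3 * d * X * Y * W = 0) : ∃ r, d = r ^ 3 := by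
  by_cases hX : X = 0
  · subst hX
    have h1 : Y ^ 3 + d * W ^ 3 = 0 := by linear_combination h
    have hW : W ≠ 0 := by
      rintro rfl
      have hY : Y ^ 3 = 0 := by linear_combination h1
      have hY0 : Y = 0 := (pow_eq_zero_iff (by norm_num)).1 hY
      rcases hne with h | h | h
      · exact h rfl
      · exact h hY0
      · exact h rfl
    refine ⟨-Y / W, ?_⟩
    field_simp
    linear_combination h1
  · by_cases hq : W ^ 2 - X * Y = 0
    · refine ⟨W / X, ?_⟩
      have h1 : (d * X ^ 3 - W ^ 3) ^ 2 = 0 := by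
        linear_combination X ^ 3 * h +
          (W ^ 4 + W ^ 2 * (X * Y) + (X * Y) ^ 2 - 3 * d * X ^ 3 * W) * hq
      have h2 : d * X ^ 3 - W ^ 3 = 0 := (pow_eq_zero_iff (by norm_num)).1 h1
      field_simp
      linear_combination h2
    · refine ⟨(d * X ^ 2 - W * Y) / (W ^ 2 - X * Y), ?_⟩
      field_simp
      linear_combination (-(d * X ^ 3 - W ^ 3)) * h

end Alg

/-- A point over K gives points over all completions. -/
theorem HasPoint.locSol {A B d : K} (h : HasPoint A B d) : LocSol K A B d := fun _ => h.map _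

end Pool.Agent.MP009fd8U
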