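import Pool.Agent.Lib.MP_009fd8_agU.At3a
import Pool.Agent.Lib.MP_12adaf_nt.TF.OWeak

/-!
MP_009fd8_ag, 3-isogenies, leaf file: the completions satisfy Hensel's lemma.
-/

namespace Pool.Agent.MP009fd8U

open IsDedekindDomain NumberField

variable {K : Type*} [Field K] [NumberField K]

/-- Hensel's lemma for monic cubic polynomials over the completion at a finite place.

Proof. HM.henselian_fin (Pool/Agent/Lib/MP_12adaf_nt/TF/OWeak.lean) gives
HenselianLocalRing (v.adicCompletionIntegers K); apply is_henselian to the monic polynomial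
X^3 + C r X^2 + C s X + C t over the integers. -/
theorem hens_adic (v : HeightOneSpectrum (𝓞 K)) :
    Hens (Valued.v : Valuation (v.adicCompletion K) (WithZero (Multiplicative ℤ))) := by
  intro r s t x0 hr hs ht hx h0 h1
  have H := Pool.Agent.Lib.MP_12adaf_nt.HM.henselian_fin v
  have hmem : ∀ x : v.adicCompletion K, Valued.v x ≤ 1 → x ∈ v.adicCompletionIntegers K :=
    fun x h => (HeightOneSpectrum.mem_adicCompletionIntegers (R := 𝓞 K) (K := K) v).2 h
  have hle : ∀ x : v.adicCompletionIntegers K, Valued.v (x : v.adicCompletion K) ≤ 1 :=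
    fun x => (HeightOneSpectrum.mem_adicCompletionIntegers (R := 𝓞 K) (K := K) v).1 x.2
  have hunit : ∀ x : v.adicCompletionIntegers K, Valued.v (x : v.adicCompletion K) = 1 →
      IsUnit x := by
    intro x h
    have hx0 : (x : v.adicCompletion K) ≠ 0 := by
      intro h2
      rw [h2, map_zero] at h
      exact zero_ne_one h
    have hinv : Valued.v ((x : v.adicCompletion K)⁻¹) ≤ 1 := by
      rw [map_inv₀, h, inv_one]
    refine IsUnit.of_mul_eq_one ⟨(x : v.adicCompletion K)⁻¹, hmem _ hinv⟩ ?_
    apply Subtype.ext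
    exact mul_inv_cancel₀ hx0
  have hmax : ∀ x : v.adicCompletionIntegers K, Valued.v (x : v.adicCompletion K) < 1 →
      x ∈ IsLocalRing.maximalIdeal (v.adicCompletionIntegers K) := by
    intro x h
    rw [IsLocalRing.mem_maximalIdeal, mem_nonunits_iff]
    intro hu
    obtain ⟨y, hy⟩ := hu.exists_right_inv
    have h2 : (x : v.adicCompletion K) * (y : v.adicCompletion K) = 1 := by
      have := congrArg (Subtype.val) hy
      exact this
    have h3 : Valued.v (x : v.adicCompletion K) * Valued.v (y : v.adicCompletion K) = 1 := by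
      rw [← map_mul, h2, map_one]
    have h4 : Valued.v (x : v.adicCompletion K) * Valued.v (y : v.adicCompletion K) ≤
        Valued.v (x : v.adicCompletion K) := mul_le_of_le_one_right' (hle y)
    rw [h3] at h4
    exact absurd h (not_lt.2 h4)
  set R : v.adicCompletionIntegers K := ⟨r, hmem r hr⟩ with hR
  set S : v.adicCompletionIntegers K := ⟨s, hmem s hs⟩ with hS
  set T : v.adicCompletionIntegers K := ⟨t, hmem t ht⟩ with hT
  set X0 : v.adicCompletionIntegers K := ⟨x0, hmem x0 hx⟩ with hX0
  have hmon : (Polynomial.X ^ 3 + Polynomial.C R * Polynomial.X ^ 2 +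
      Polynomial.C S * Polynomial.X + Polynomial.C T).Monic := by
    monicity!
  obtain ⟨a, ha, -⟩ := H.is_henselian _ hmon X0 (by
    apply hmax
    have e : ((Polynomial.eval X0 (Polynomial.X ^ 3 + Polynomial.C R * Polynomial.X ^ 2 +
        Polynomial.C S * Polynomial.X + Polynomial.C T) : v.adicCompletionIntegers K) :
          v.adicCompletion K) = x0 ^ 3 + r * x0 ^ 2 + s * x0 + t := by
      simp [hR, hS, hT, hX0]
    rw [e]
    exact h0) (by
    apply hunit
    have e : ((Polynomial.eval X0 (Polynomial.derivative (Polynomial.X ^ 3 +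
        Polynomial.C R * Polynomial.X ^ 2 + Polynomial.C S * Polynomial.X +
          Polynomial.C T)) : v.adicCompletionIntegers K) :
            v.adicCompletion K) = 3 * x0 ^ 2 + 2 * r * x0 + s := by
      have h2c : ((2 : v.adicCompletionIntegers K) : v.adicCompletion K) = 2 := rfl
      simp [hR, hS, hT, hX0, h2c]
      ring
    rw [e]
    exact h1)
  refine ⟨(a : v.adicCompletion K), ?_⟩
  have h5 : a ^ 3 + R * a ^ 2 + S * a + T = 0 := by
    have := ha
    simpa [Polynomial.IsRoot] using this
  have h6 := congrArg (Subtype.val) h5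
  simpa [hR, hS, hT] using h6

/-- Near a unit cube, not above 3: a cube. -/
theorem cube_of_near {F : Type*} [Field F] {Γ : Type*} [LinearOrderedCommGroupWithZero Γ]
    (v : Valuation F Γ) (hens : Hens v) {d g : F} (h3 : v 3 = 1) (hd : v d = 1)
    (hg : v (d - g ^ 3) < 1) : ∃ x, d = x ^ 3 := by
  have hg3 : v (g ^ 3) = 1 := by
    have e : g ^ 3 = d - (d - g ^ 3) := by ring
    rw [e, Valuation.map_sub_eq_of_lt_left v (by rw [hd]; exact hg), hd]
  have hg1 : v g = 1 := by
    rw [map_pow] at hg3
    exact (pow_eq_one_iff.1 hg3).resolve_right (by norm_num)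
  obtain ⟨x, hx⟩ := hens 0 0 (-d) g (by simp) (by simp) (by rw [Valuation.map_neg, hd]) hg1.le
    (by
      have e : g ^ 3 + 0 * g ^ 2 + 0 * g + -d = g ^ 3 - d := by ring
      rw [e, Valuation.map_sub_swap]
      exact hg)
    (by
      have e : 3 * g ^ 2 + 2 * 0 * g + 0 = 3 * g ^ 2 := by ring
      rw [e, map_mul, map_pow, h3, hg1, one_pow, one_mul])
  exact ⟨x, by linear_combination -hx⟩

end Pool.Agent.MP009fd8U
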