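import Pool.Agent.Lib.MP_009fd8_agU.Def

/-!
MP_009fd8_ag, 3-isogenies, leaf file: the places not above 3 where A^3 - 27 B is not a unit.
-/

namespace Pool.Agent.MP009fd8U

/-- A point with integral coordinates, one of them a unit. -/
theorem res_scale {F : Type*} [Field F] {Γ : Type*} [LinearOrderedCommGroupWithZero Γ]
    (v : Valuation F Γ) {A B d : F} (h : HasPoint A B d) : ∃ X Y Z : F,
      v X ≤ 1 ∧ v Y ≤ 1 ∧ v Z ≤ 1 ∧ (v X = 1 ∨ v Y = 1 ∨ v Z = 1) ∧
      d ^ 2 * X ^ 3 + Y ^ 3 + B * d * Z ^ 3 = A * d * X * Y * Z := by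
  obtain ⟨X, Y, Z, h0, h1⟩ := h
  have key : ∀ c : F, c ≠ 0 → v X ≤ v c → v Y ≤ v c → v Z ≤ v c → (c = X ∨ c = Y ∨ c = Z) →
      ∃ X Y Z : F, v X ≤ 1 ∧ v Y ≤ 1 ∧ v Z ≤ 1 ∧ (v X = 1 ∨ v Y = 1 ∨ v Z = 1) ∧
        d ^ 2 * X ^ 3 + Y ^ 3 + B * d * Z ^ 3 = A * d * X * Y * Z := by
    intro c hc hX hY hZ hor
    have hvc : 0 < v c := zero_lt_iff.2 ((Valuation.ne_zero_iff v).2 hc)
    refine ⟨X / c, Y / c, Z / c, ?_, ?_, ?_, ?_, ?_⟩
    · rw [map_div₀]; exact div_le_one_of_le₀ hX zero_le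
    · rw [map_div₀]; exact div_le_one_of_le₀ hY zero_le
    · rw [map_div₀]; exact div_le_one_of_le₀ hZ zero_le
    · rcases hor with rfl | rfl | rfl
      · left; rw [div_self hc, map_one]
      · right; left; rw [div_self hc, map_one]
      · right; right; rw [div_self hc, map_one]
    · field_simp
      linear_combination h1
  rcases le_total (v X) (v Y) with hxy | hxy
  · rcases le_total (v Y) (v Z) with hyz | hyz
    · refine key Z ?_ (hxy.trans hyz) hyz le_rfl (Or.inr (Or.inr rfl))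
      rintro rfl
      rw [map_zero] at hyz
      have hY0 : Y = 0 := by
        by_contra hY
        exact (Valuation.ne_zero_iff v).2 hY (le_antisymm hyz zero_le)
      have hX0 : X = 0 := by
        by_contra hX
        exact (Valuation.ne_zero_iff v).2 hX (le_antisymm (hxy.trans hyz) zero_le)
      rcases h0 with h | h | h
      · exact h hX0
      · exact h hY0
      · exact h rfl
    · refine key Y ?_ hxy le_rfl hyz (Or.inr (Or.inl rfl))
      rintro rfl
      rw [map_zero] at hxy hyz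
      have hZ0 : Z = 0 := by
        by_contra hZ
        exact (Valuation.ne_zero_iff v).2 hZ (le_antisymm hyz zero_le)
      have hX0 : X = 0 := by
        by_contra hX
        exact (Valuation.ne_zero_iff v).2 hX (le_antisymm hxy zero_le)
      rcases h0 with h | h | h
      · exact h hX0
      · exact h rfl
      · exact h hZ0
  · rcases le_total (v X) (v Z) with hxz | hxz
    · refine key Z ?_ hxz (hxy.trans hxz) le_rfl (Or.inr (Or.inr rfl))
      rintro rfl
      rw [map_zero] at hxz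
      have hX0 : X = 0 := by
        by_contra hX
        exact (Valuation.ne_zero_iff v).2 hX (le_antisymm hxz zero_le)
      have hY0 : Y = 0 := by
        by_contra hY
        exact (Valuation.ne_zero_iff v).2 hY (le_antisymm (hxy.trans hxz) zero_le)
      rcases h0 with h | h | h
      · exact h hX0
      · exact h hY0
      · exact h rfl
    · refine key X ?_ le_rfl hxy hxz (Or.inl rfl)
      rintro rfl
      rw [map_zero] at hxy hxz
      have hY0 : Y = 0 := by
        by_contra hY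
        exact (Valuation.ne_zero_iff v).2 hY (le_antisymm hxy zero_le)
      have hZ0 : Z = 0 := by
        by_contra hZ
        exact (Valuation.ne_zero_iff v).2 hZ (le_antisymm hxz zero_le)
      rcases h0 with h | h | h
      · exact h rfl
      · exact h hY0
      · exact h hZ0

theorem res_lt_of_cube {F : Type*} [Field F] {Γ : Type*} [LinearOrderedCommGroupWithZero Γ]
    (v : Valuation F Γ) {x : F} (h : v (x ^ 3) < 1) : v x < 1 := by
  rw [map_pow] at h
  by_contra hcon
  rw [not_lt] at hcon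
  exact absurd (one_le_pow_of_one_le' hcon 3) (not_le.2 h)

/-- Let v d = v 3 = v B = 1, v A ≤ 1 and v (A^3 - 27 B) < 1. If C_d has a point then d is congruent
to a cube.

Proof. Take a point X, Y, Z; dividing by the coordinate of largest valuation we may assume that
v X, v Y, v Z ≤ 1 and that one of them is 1. Put W = A Z / 3, so v W = v A * v Z ≤ 1, and
N = d^2 X^3 + Y^3 + d W^3 - 3 d X Y W = d Z^3 (A^3 - 27 B) / 27, so v N < 1. Also v A = 1, because
v (A^3) = v (27 B + (A^3 - 27 B)) = 1. So one of v X, v Y, v W is 1.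
Identity: (d X^2 - W Y)^3 - d (W^2 - X Y)^3 = (d X^3 - W^3) N.
If v (W^2 - X Y) = 1: g = (d X^2 - W Y) / (W^2 - X Y).
If v (W^2 - X Y) < 1: identity (d X^3 - W^3)^2 = X^3 N + (W^4 + W^2 X Y + X^2 Y^2 - 3 d X^3 W) (W^2 - X Y),
so v (d X^3 - W^3) < 1. If v X < 1 then v W < 1 and then v Y < 1 by the definition of N, a
contradiction. So v X = 1 and g = W / X. -/
theorem near_of_point {F : Type*} [Field F] {Γ : Type*} [LinearOrderedCommGroupWithZero Γ]
    (v : Valuation F Γ) {A B d : F} (hd : v d = 1) (h3 : v 3 = 1) (hA : v A ≤ 1) (hB : v B = 1)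
    (hAB : v (A ^ 3 - 27 * B) < 1) (h : HasPoint A B d) : ∃ g, v (d - g ^ 3) < 1 := by
  obtain ⟨X, Y, Z, hX, hY, hZ, hmax, heq⟩ := res_scale v h
  have h30 : (3 : F) ≠ 0 := by
    intro h0
    rw [h0, map_zero] at h3
    exact zero_ne_one h3
  have h27 : v 27 = 1 := by
    have : (27 : F) = 3 ^ 3 := by norm_num
    rw [this, map_pow, h3, one_pow]
  have h270 : (27 : F) ≠ 0 := by
    intro h0
    rw [h0, map_zero] at h27
    exact zero_ne_one h27
  have hA3 : v (A ^ 3) = 1 := by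
    have e : A ^ 3 = (A ^ 3 - 27 * B) + 27 * B := by ring
    have hb : v (27 * B) = 1 := by rw [map_mul, h27, hB, one_mul]
    rw [e, Valuation.map_add_eq_of_lt_right v (by rw [hb]; exact hAB), hb]
  have hA1 : v A = 1 := by
    rw [map_pow] at hA3
    exact (pow_eq_one_iff_of_nonneg zero_le three_ne_zero).1 hA3
  obtain ⟨W, hWdef⟩ : ∃ W : F, 3 * W = A * Z := ⟨A * Z / 3, by field_simp⟩
  have hWZ : v W = v Z := by
    have := congrArg v hWdef
    rwa [map_mul, map_mul, h3, hA1, one_mul, one_mul] at this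
  have hW : v W ≤ 1 := by rw [hWZ]; exact hZ
  obtain ⟨N, hNdef⟩ : ∃ N : F, N = d ^ 2 * X ^ 3 + Y ^ 3 + d * W ^ 3 - 3 * d * X * Y * W :=
    ⟨_, rfl⟩
  have hNeq : 27 * N = d * Z ^ 3 * (A ^ 3 - 27 * B) := by
    have e1 : 27 * W ^ 3 = A ^ 3 * Z ^ 3 := by
      have : (3 * W) ^ 3 = (A * Z) ^ 3 := by rw [hWdef]
      linear_combination this
    rw [hNdef]
    linear_combination 27 * heq + d * e1 - 27 * d * X * Y * hWdef
  have hN : v N < 1 := by
    have h1 := congrArg v hNeq
    rw [map_mul, h27, one_mul, map_mul, map_mul, hd, one_mul, map_pow] at h1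
    rw [h1]
    calc v Z ^ 3 * v (A ^ 3 - 27 * B) ≤ 1 * v (A ^ 3 - 27 * B) := by
          gcongr
          exact pow_le_one' hZ 3
      _ < 1 := by rw [one_mul]; exact hAB
  have hd0 : d ≠ 0 := by
    intro h0
    rw [h0, map_zero] at hd
    exact zero_ne_one hd
  have hle : ∀ x y : F, v x ≤ 1 → v y ≤ 1 → v (x * y) ≤ 1 := fun x y hx hy => by
    rw [map_mul]; exact mul_le_one' hx hy
  have hpow : ∀ (x : F) (k : ℕ), v x ≤ 1 → v (x ^ k) ≤ 1 := fun x k hx => by
    rw [map_pow]; exact pow_le_one' hx k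
  have hadd : ∀ x y : F, v x ≤ 1 → v y ≤ 1 → v (x + y) ≤ 1 := fun x y hx hy =>
    v.map_add_le hx hy
  have hsub : ∀ x y : F, v x ≤ 1 → v y ≤ 1 → v (x - y) ≤ 1 := fun x y hx hy =>
    v.map_sub_le hx hy
  have hlt : ∀ x y : F, v x ≤ 1 → v y < 1 → v (x * y) < 1 := fun x y hx hy => by
    rw [map_mul]
    exact lt_of_le_of_lt (mul_le_of_le_one_left' hx) hy
  have hd1 : v d ≤ 1 := hd.le
  have h31 : v 3 ≤ 1 := h3.le
  have hXY : v (X * Y) ≤ 1 := hle _ _ hX hY
  have hM : v (d * X ^ 3 - W ^ 3) ≤ 1 := hsub _ _ (hle _ _ hd1 (hpow X 3 hX)) (hpow W 3 hW)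
  have hQ : v (W ^ 2 - X * Y) ≤ 1 := hsub _ _ (hpow W 2 hW) hXY
  rcases lt_or_eq_of_le hQ with hQ1 | hQ1
  · -- the second case
    have hsq : (d * X ^ 3 - W ^ 3) ^ 2 =
        X ^ 3 * N + (W ^ 4 + W ^ 2 * (X * Y) + (X * Y) ^ 2 - 3 * d * X ^ 3 * W) *
          (W ^ 2 - X * Y) := by
      rw [hNdef]
      ring
    have hM1 : v (d * X ^ 3 - W ^ 3) < 1 := by
      have h1 : v ((d * X ^ 3 - W ^ 3) ^ 2) < 1 := by
        rw [hsq]
        refine v.map_add_lt (hlt _ _ (hpow X 3 hX) hN) (hlt _ _ ?_ hQ1)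
        refine hsub _ _ (hadd _ _ (hadd _ _ (hpow W 4 hW) (hle _ _ (hpow W 2 hW) hXY))
          (hpow _ 2 hXY)) ?_
        exact hle _ _ (hle _ _ (hle _ _ h31 hd1) (hpow X 3 hX)) hW
      rw [map_pow] at h1
      by_contra hcon
      rw [not_lt] at hcon
      exact absurd (one_le_pow_of_one_le' hcon 2) (not_le.2 h1)
    have hX1 : v X = 1 := by
      by_contra hX1
      have hXlt : v X < 1 := lt_of_le_of_ne hX hX1
      have hX3 : v (X ^ 3) < 1 := by
        have : X ^ 3 = X ^ 2 * X := by ring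
        rw [this]
        exact hlt _ _ (hpow X 2 hX) hXlt
      have hW3 : v (W ^ 3) < 1 := by
        have : W ^ 3 = d * X ^ 3 - (d * X ^ 3 - W ^ 3) := by ring
        rw [this]
        exact v.map_sub_lt (hlt _ _ hd1 hX3) hM1
      have hW1 : v W < 1 := res_lt_of_cube v hW3
      have hY3 : v (Y ^ 3) < 1 := by
        have : Y ^ 3 = N - d ^ 2 * X ^ 3 - d * W ^ 3 + 3 * d * X * Y * W := by
          rw [hNdef]
          ring
        rw [this]
        refine v.map_add_lt (v.map_sub_lt (v.map_sub_lt hN (hlt _ _ (hpow d 2 hd1) hX3))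
          (hlt _ _ hd1 hW3)) (hlt _ _ ?_ hW1)
        exact hle _ _ (hle _ _ (hle _ _ h31 hd1) hX) hY
      have hY1 : v Y < 1 := res_lt_of_cube v hY3
      rcases hmax with h1 | h1 | h1
      · exact hX1 h1
      · exact hY1.ne h1
      · rw [hWZ] at hW1
        exact hW1.ne h1
    have hX0 : X ≠ 0 := by
      intro h0
      rw [h0, map_zero] at hX1
      exact zero_ne_one hX1
    refine ⟨W / X, ?_⟩
    have e : d - (W / X) ^ 3 = (d * X ^ 3 - W ^ 3) / X ^ 3 := by
      field_simp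
    rw [e, map_div₀, map_pow, hX1, one_pow, div_one]
    exact hM1
  · -- the first case
    have hQ0 : W ^ 2 - X * Y ≠ 0 := by
      intro h0
      rw [h0, map_zero] at hQ1
      exact zero_ne_one hQ1
    refine ⟨(d * X ^ 2 - W * Y) / (W ^ 2 - X * Y), ?_⟩
    have e : d - ((d * X ^ 2 - W * Y) / (W ^ 2 - X * Y)) ^ 3 =
        -((d * X ^ 3 - W ^ 3) * N) / (W ^ 2 - X * Y) ^ 3 := by
      rw [div_pow, eq_div_iff (pow_ne_zero 3 hQ0), sub_mul, div_mul_cancel₀ _ (pow_ne_zero 3 hQ0),
        hNdef]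
      ring
    rw [e, map_div₀, map_pow, hQ1, one_pow, div_one, Valuation.map_neg]
    exact hlt _ _ hM hN

end Pool.Agent.MP009fd8U
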