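import Pool.Agent.Lib.MP_009fd8_agU.Val
import Pool.Agent.Lib.MP_009fd8_agU.Res
import Pool.Agent.Lib.MP_009fd8_agU.At3
import Pool.Agent.Lib.MP_009fd8_agU.HensK
import Pool.Agent.Lib.MP_009fd8_agU.Closure
import Pool.Agent.Lib.MP_009fd8_ag.Places

/-!
MP_009fd8_ag, 3-isogenies: the locally soluble classes lie in the explicit groups, and the main
theorem.
-/

namespace Pool.Agent.MP009fd8U

open IsDedekindDomain NumberField WithZero Pool.Agent.MP009fd8

variable {K : Type*} [Field K] [NumberField K]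

theorem exists_scale (v : HeightOneSpectrum (𝓞 K)) {d : K} (hd : d ≠ 0)
    (h : ∃ w, v.valuation K d = w ^ 3) :
    ∃ r : K, r ≠ 0 ∧ v.valuation K (d * r ^ 3) = 1 := by
  obtain ⟨w, hw⟩ := h
  have hw0 : w ≠ 0 := by
    rintro rfl
    have : v.valuation K d = 0 := by rw [hw]; simp
    exact hd ((Valuation.zero_iff _).1 this)
  obtain ⟨π, hπ⟩ := v.valuation_exists_uniformizer K
  lift w to ℤ using hw0 with m
  have hπ0 : π ≠ 0 := by
    rintro rfl
    rw [map_zero] at hπ
    exact absurd hπ.symm exp_ne_zero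
  refine ⟨π ^ m, zpow_ne_zero _ hπ0, ?_⟩
  rw [map_mul, map_pow, map_zpow₀, hπ, hw, ← mul_pow, ← exp_zsmul, ← exp_add]
  have : m + m • (-1 : ℤ) = 0 := by simp
  rw [this, exp_zero, one_pow]

/-- The local point of the rescaled class. -/
theorem point_scale {v : HeightOneSpectrum (𝓞 K)} {A B d r : K} (hr : r ≠ 0)
    (h : HasPoint (algebraMap K (v.adicCompletion K) A) (algebraMap K (v.adicCompletion K) B)
      (algebraMap K (v.adicCompletion K) d)) :
    HasPoint (algebraMap K (v.adicCompletion K) A) (algebraMap K (v.adicCompletion K) B)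
      (algebraMap K (v.adicCompletion K) (d * r ^ 3)) := by
  rw [map_mul, map_pow]
  exact h.mul_cube ((map_ne_zero _).2 hr)

theorem cubeAt_of_scale {v : HeightOneSpectrum (𝓞 K)} {d r : K} (hr : r ≠ 0)
    (h : ∃ x : v.adicCompletion K, algebraMap K (v.adicCompletion K) (d * r ^ 3) = x ^ 3) :
    CubeAt v d := by
  obtain ⟨x, hx⟩ := h
  have hr' : algebraMap K (v.adicCompletion K) r ≠ 0 := (map_ne_zero _).2 hr
  refine ⟨x / algebraMap K (v.adicCompletion K) r, ?_⟩
  rw [div_pow, ← hx, map_mul, map_pow]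
  field_simp

theorem valued_int_le (v : HeightOneSpectrum (𝓞 K)) (a : 𝓞 K) :
    Valued.v (algebraMap K (v.adicCompletion K) (algebraMap (𝓞 K) K a)) ≤ 1 := by
  rw [val_completion]
  exact v.valuation_le_one a

theorem valued_int_eq (v : HeightOneSpectrum (𝓞 K)) {a : 𝓞 K} (h : a ∉ v.asIdeal) :
    Valued.v (algebraMap K (v.adicCompletion K) (algebraMap (𝓞 K) K a)) = 1 := by
  rw [val_completion]
  exact val_eq_one v h

theorem valued_int_lt (v : HeightOneSpectrum (𝓞 K)) {a : 𝓞 K} (h : a ∈ v.asIdeal) :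
    Valued.v (algebraMap K (v.adicCompletion K) (algebraMap (𝓞 K) K a)) < 1 := by
  rw [val_completion]
  exact (v.valuation_lt_one_iff_mem (K := K) a).2 h

theorem valued_three_eq (v : HeightOneSpectrum (𝓞 K)) (h : (3 : 𝓞 K) ∉ v.asIdeal) :
    Valued.v (3 : v.adicCompletion K) = 1 := by
  have h1 := valued_int_eq v h
  rwa [map_ofNat, map_ofNat] at h1

theorem valued_three_lt (v : HeightOneSpectrum (𝓞 K)) (h : (3 : 𝓞 K) ∈ v.asIdeal) :
    Valued.v (3 : v.adicCompletion K) < 1 := by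
  have h1 := valued_int_lt v h
  rwa [map_ofNat, map_ofNat] at h1

/-- A place above 3 not containing a does not contain a^3 - 27 b. -/
theorem disc_notMem {a b : 𝓞 K} (v : HeightOneSpectrum (𝓞 K)) (ha : a ∉ v.asIdeal)
    (h3 : (3 : 𝓞 K) ∈ v.asIdeal) : a ^ 3 - 27 * b ∉ v.asIdeal := by
  intro h
  apply ha
  have h1 : a ^ 3 ∈ v.asIdeal := by
    have e : a ^ 3 = (a ^ 3 - 27 * b) + 3 * (9 * b) := by ring
    rw [e]
    exact Ideal.add_mem _ h (Ideal.mul_mem_right _ _ h3)
  exact v.isPrime.mem_of_pow_mem _ h1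

/-- A place above 3 not containing a^3 - 27 b does not contain a. -/
theorem a_notMem {a b : 𝓞 K} (v : HeightOneSpectrum (𝓞 K))
    (h3 : (3 : 𝓞 K) ∈ v.asIdeal) (hD : a ^ 3 - 27 * b ∉ v.asIdeal) : a ∉ v.asIdeal := by
  intro h
  apply hD
  have e : a ^ 3 - 27 * b = a * a ^ 2 + 3 * (-9 * b) := by ring
  rw [e]
  exact Ideal.add_mem _ (Ideal.mul_mem_right _ _ h) (Ideal.mul_mem_right _ _ h3)

/-- Away from 3: a locally soluble class at a place where A^3 - 27 B is not a unit is a cube. -/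
theorem cubeAt_of_near (v : HeightOneSpectrum (𝓞 K)) {A B : 𝓞 K} {d : K} (hd : d ≠ 0)
    (h3 : (3 : 𝓞 K) ∉ v.asIdeal) (hB : B ∉ v.asIdeal) (hAB : A ^ 3 - 27 * B ∈ v.asIdeal)
    (h : HasPoint (algebraMap K (v.adicCompletion K) (algebraMap (𝓞 K) K A))
      (algebraMap K (v.adicCompletion K) (algebraMap (𝓞 K) K B))
      (algebraMap K (v.adicCompletion K) d)) : CubeAt v d := by
  have hv := cube_of_point (Valued.v : Valuation (v.adicCompletion K) _)
    ((map_ne_zero _).2 hd) (valued_int_le v A) (valued_int_eq v hB) h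
  rw [val_completion] at hv
  obtain ⟨r, hr, hr1⟩ := exists_scale v hd hv
  have hd1 : Valued.v (algebraMap K (v.adicCompletion K) (d * r ^ 3)) = 1 := by
    rw [val_completion]; exact hr1
  have h2 : Valued.v ((algebraMap K (v.adicCompletion K) (algebraMap (𝓞 K) K A)) ^ 3 -
      27 * algebraMap K (v.adicCompletion K) (algebraMap (𝓞 K) K B)) < 1 := by
    have h4 := valued_int_lt v hAB
    rw [map_sub, map_sub, map_pow, map_pow, map_mul, map_mul, map_ofNat, map_ofNat] at h4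
    exact h4
  obtain ⟨g, hg⟩ := near_of_point (Valued.v : Valuation (v.adicCompletion K) _) hd1
    (valued_three_eq v h3) (valued_int_le v A) (valued_int_eq v hB) h2 (point_scale hr h)
  exact cubeAt_of_scale hr
    (cube_of_near (Valued.v : Valuation (v.adicCompletion K) _) (hens_adic v)
      (valued_three_eq v h3) hd1 hg)

/-- First side. -/
theorem groupA_of_locSol {a b : 𝓞 K} {d : K} (hd : d ≠ 0)
    (h : LocSol K (algebraMap (𝓞 K) K a) (algebraMap (𝓞 K) K b) d) : GroupA a b d := by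
  refine ⟨fun v hb => ?_, fun v h3 hb hD => ?_⟩
  · have hv := cube_of_point (Valued.v : Valuation (v.adicCompletion K) _)
      ((map_ne_zero _).2 hd) (valued_int_le v a) (valued_int_eq v hb) (h v)
    rwa [val_completion] at hv
  · exact cubeAt_of_near v hd h3 hb hD (h v)

/-- Second side. -/
theorem groupB_of_locSol {θ a b : 𝓞 K} (hθ : θ ^ 2 = -3) {d : K} (hd : d ≠ 0)
    (h : LocSol K (algebraMap (𝓞 K) K (3 * a)) (algebraMap (𝓞 K) K (a ^ 3 - 27 * b)) d) :
    GroupB θ a b d := by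
  have hθK : (algebraMap (𝓞 K) K θ) ^ 2 = -3 := by
    rw [← map_pow, hθ, map_neg, map_ofNat]
  have hval : ∀ v : HeightOneSpectrum (𝓞 K), a ^ 3 - 27 * b ∉ v.asIdeal →
      ∃ w, v.valuation K d = w ^ 3 := by
    intro v hv
    have h1 := cube_of_point (Valued.v : Valuation (v.adicCompletion K) _)
      ((map_ne_zero _).2 hd) (valued_int_le v _) (valued_int_eq v hv) (h v)
    rwa [val_completion] at h1
  have hthree : ∀ v : HeightOneSpectrum (𝓞 K), (3 : 𝓞 K) ∈ v.asIdeal → a ∉ v.asIdeal →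
      PrimaryAt v (algebraMap (𝓞 K) K θ) d ∧ (b ∈ v.asIdeal → CubeAt v d) := by
    intro v h3 hav
    obtain ⟨r, hr, hr1⟩ := exists_scale v hd (hval v (disc_notMem v hav h3))
    have hd1 : Valued.v (algebraMap K (v.adicCompletion K) (d * r ^ 3)) = 1 := by
      rw [val_completion]; exact hr1
    have hp := point_scale hr (h v)
    have ea : algebraMap K (v.adicCompletion K) (algebraMap (𝓞 K) K (3 * a)) =
        3 * algebraMap K (v.adicCompletion K) (algebraMap (𝓞 K) K a) := by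
      rw [map_mul, map_mul, map_ofNat, map_ofNat]
    have eb : algebraMap K (v.adicCompletion K) (algebraMap (𝓞 K) K (a ^ 3 - 27 * b)) =
        (algebraMap K (v.adicCompletion K) (algebraMap (𝓞 K) K a)) ^ 3 -
          27 * algebraMap K (v.adicCompletion K) (algebraMap (𝓞 K) K b) := by
      rw [map_sub, map_sub, map_pow, map_pow, map_mul, map_mul, map_ofNat, map_ofNat]
    rw [ea, eb] at hp
    have hθv : (algebraMap K (v.adicCompletion K) (algebraMap (𝓞 K) K θ)) ^ 2 = -3 := by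
      rw [← map_pow, hθK, map_neg, map_ofNat]
    obtain ⟨⟨g, hg⟩, hc⟩ := primary_of_point (Valued.v : Valuation (v.adicCompletion K) _)
      (hens_adic v) hθv three_ne_zero (valued_three_lt v h3) hd1 (valued_int_eq v hav)
      (valued_int_le v b) hp
    refine ⟨?_, fun hb => cubeAt_of_scale hr (hc (valued_int_lt v hb))⟩
    have hr' : algebraMap K (v.adicCompletion K) r ≠ 0 := (map_ne_zero _).2 hr
    refine ⟨g / algebraMap K (v.adicCompletion K) r, ?_⟩
    have e1 : algebraMap K (v.adicCompletion K) d -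
        (g / algebraMap K (v.adicCompletion K) r) ^ 3 =
        (algebraMap K (v.adicCompletion K) (d * r ^ 3) - g ^ 3) *
          ((algebraMap K (v.adicCompletion K) r)⁻¹) ^ 3 := by
      rw [map_mul, map_pow]
      field_simp
    have e2 : algebraMap K (v.adicCompletion K) (3 * algebraMap (𝓞 K) K θ * d) =
        (3 * algebraMap K (v.adicCompletion K) (algebraMap (𝓞 K) K θ)) *
          (algebraMap K (v.adicCompletion K) (d * r ^ 3) *
          ((algebraMap K (v.adicCompletion K) r)⁻¹) ^ 3) := by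
      rw [map_mul, map_mul, map_ofNat, map_mul, map_pow]
      field_simp
    rw [e1, e2, map_mul, map_mul _ (3 * _) _, map_mul _ (algebraMap K (v.adicCompletion K)
      (d * r ^ 3)) _, hd1, one_mul]
    gcongr
  refine ⟨hval, fun v hD hb => ?_, fun v h3 hav => (hthree v h3 hav).1⟩
  by_cases h3 : (3 : 𝓞 K) ∈ v.asIdeal
  · exact (hthree v h3 (a_notMem v h3 hD)).2 hb
  · refine cubeAt_of_near v hd h3 hD ?_ (h v)
    have e : (3 * a) ^ 3 - 27 * (a ^ 3 - 27 * b) = 729 * b := by ring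
    rw [e]
    exact Ideal.mul_mem_left _ _ hb

/-- First side: if the explicit group is generated by classes with points over K. -/
theorem sideA {a b : 𝓞 K} (hb : b ≠ 0) {S : Set K}
    (hS : ∀ g ∈ S, g ≠ 0 ∧ HasPoint (algebraMap (𝓞 K) K a) (algebraMap (𝓞 K) K b) g)
    (hgen : Generates S (GroupA a b)) (d : K) (hd : d ≠ 0) :
    (LocSol K (algebraMap (𝓞 K) K a) (algebraMap (𝓞 K) K b) d ↔
        HasPoint (algebraMap (𝓞 K) K a) (algebraMap (𝓞 K) K b) d) ∧
      (LocSol K (algebraMap (𝓞 K) K a) (algebraMap (𝓞 K) K b) d ↔ GroupA a b d) := by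
  have hbK : algebraMap (𝓞 K) K b ≠ 0 :=
    (map_ne_zero_iff _ (FaithfulSMul.algebraMap_injective (𝓞 K) K)).2 hb
  have k1 : LocSol K (algebraMap (𝓞 K) K a) (algebraMap (𝓞 K) K b) d → GroupA a b d :=
    groupA_of_locSol hd
  have k2 : GroupA a b d → HasPoint (algebraMap (𝓞 K) K a) (algebraMap (𝓞 K) K b) d := by
    intro h1
    obtain ⟨l, w, hl, hw, rfl⟩ := hgen d hd h1
    exact hasPoint_of_list hbK hS hl hw
  exact ⟨⟨fun h1 => k2 (k1 h1), fun h1 => h1.locSol⟩, ⟨k1, fun h1 => (k2 h1).locSol⟩⟩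

/-- Second side: if the classes of the explicit group which lie in Q are generated by classes
with points over K. -/
theorem sideB {θ a b : 𝓞 K} (hθ : θ ^ 2 = -3) (hD : a ^ 3 - 27 * b ≠ 0) {Q S : Set K}
    (hS : ∀ g ∈ S, g ≠ 0 ∧
      HasPoint (algebraMap (𝓞 K) K (3 * a)) (algebraMap (𝓞 K) K (a ^ 3 - 27 * b)) g)
    (hgen : Generates S (fun x => x ∈ Q ∧ GroupB θ a b x)) (d : K) (hd : d ≠ 0) (hQ : d ∈ Q) :
    (LocSol K (algebraMap (𝓞 K) K (3 * a)) (algebraMap (𝓞 K) K (a ^ 3 - 27 * b)) d ↔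
        HasPoint (algebraMap (𝓞 K) K (3 * a)) (algebraMap (𝓞 K) K (a ^ 3 - 27 * b)) d) ∧
      (LocSol K (algebraMap (𝓞 K) K (3 * a)) (algebraMap (𝓞 K) K (a ^ 3 - 27 * b)) d ↔
        GroupB θ a b d) := by
  have hDK : algebraMap (𝓞 K) K (a ^ 3 - 27 * b) ≠ 0 :=
    (map_ne_zero_iff _ (FaithfulSMul.algebraMap_injective (𝓞 K) K)).2 hD
  have k1 : LocSol K (algebraMap (𝓞 K) K (3 * a)) (algebraMap (𝓞 K) K (a ^ 3 - 27 * b)) d →
      GroupB θ a b d := groupB_of_locSol hθ hd
  have k2 : GroupB θ a b d →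
      HasPoint (algebraMap (𝓞 K) K (3 * a)) (algebraMap (𝓞 K) K (a ^ 3 - 27 * b)) d := by
    intro h1
    obtain ⟨l, w, hl, hw, rfl⟩ := hgen d hd ⟨hQ, h1⟩
    exact hasPoint_of_list hDK hS hl hw
  exact ⟨⟨fun h1 => k2 (k1 h1), fun h1 => h1.locSol⟩, ⟨k1, fun h1 => (k2 h1).locSol⟩⟩

end Pool.Agent.MP009fd8U
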