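import Pool.Agent.Lib.MP_009fd8_agU.Main
import Pool.Agent.Lib.MP_009fd8_agT.Class
import Pool.Agent.Lib.MP_009fd8_agT.Bad3

/-!
MP_009fd8_ag, 3-isogenies: the case of rank 0 over fields of class number prime to 3.
-/

namespace Pool.Agent.MP009fd8U

open IsDedekindDomain NumberField WithZero Pool.Agent.MP009fd8

variable {K : Type*} [Field K] [NumberField K]

theorem CubeAt.mul {v : HeightOneSpectrum (𝓞 K)} {x y : K} (hx : CubeAt v x)
    (hy : CubeAt v y) : CubeAt v (x * y) := by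
  obtain ⟨g, hg⟩ := hx
  obtain ⟨k, hk⟩ := hy
  exact ⟨g * k, by rw [map_mul, hg, hk, mul_pow]⟩

theorem CubeAt.pow {v : HeightOneSpectrum (𝓞 K)} {x : K} (hx : CubeAt v x) (n : ℕ) :
    CubeAt v (x ^ n) := by
  obtain ⟨g, hg⟩ := hx
  exact ⟨g ^ n, by rw [map_pow, hg, ← pow_mul, ← pow_mul, mul_comm]⟩

theorem cubeAt_cube {v : HeightOneSpectrum (𝓞 K)} (x : K) : CubeAt v (x ^ 3) :=
  ⟨algebraMap K _ x, by rw [map_pow]⟩

theorem CubeAt.of_mul_cube {v : HeightOneSpectrum (𝓞 K)} {x r : K} (hr : r ≠ 0)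
    (h : CubeAt v (x * r ^ 3)) : CubeAt v x := by
  have h1 := h.mul (cubeAt_cube r⁻¹)
  have e : x * r ^ 3 * r⁻¹ ^ 3 = x := by field_simp
  rwa [e] at h1

theorem PrimaryAt.val {v : HeightOneSpectrum (𝓞 K)} {θ x : K}
    {g : v.adicCompletion K} (h : Valued.v (algebraMap K (v.adicCompletion K) x - g ^ 3) ≤
      Valued.v (algebraMap K (v.adicCompletion K) (3 * θ * x)))
    (hθ : Valued.v (algebraMap K (v.adicCompletion K) (3 * θ)) ≤ 1) :
    Valued.v (g ^ 3) ≤ Valued.v (algebraMap K (v.adicCompletion K) x) := by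
  have e : g ^ 3 = algebraMap K (v.adicCompletion K) x -
      (algebraMap K (v.adicCompletion K) x - g ^ 3) := by ring
  rw [e]
  refine Valuation.map_sub_le _ le_rfl (h.trans ?_)
  rw [map_mul, map_mul]
  exact mul_le_of_le_one_left' hθ

theorem PrimaryAt.mul {v : HeightOneSpectrum (𝓞 K)} {θ x y : K}
    (hθ : Valued.v (algebraMap K (v.adicCompletion K) (3 * θ)) ≤ 1) (hx : PrimaryAt v θ x)
    (hy : PrimaryAt v θ y) : PrimaryAt v θ (x * y) := by
  obtain ⟨g, hg⟩ := hx
  obtain ⟨k, hk⟩ := hy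
  have hg3 := PrimaryAt.val hg hθ
  refine ⟨g * k, ?_⟩
  have e : algebraMap K (v.adicCompletion K) (x * y) - (g * k) ^ 3 =
      (algebraMap K (v.adicCompletion K) x - g ^ 3) * algebraMap K (v.adicCompletion K) y +
        g ^ 3 * (algebraMap K (v.adicCompletion K) y - k ^ 3) := by
    rw [map_mul]; ring
  have e2 : Valued.v (algebraMap K (v.adicCompletion K) (3 * θ * (x * y))) =
      Valued.v (algebraMap K (v.adicCompletion K) (3 * θ)) *
        (Valued.v (algebraMap K (v.adicCompletion K) x) *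
        Valued.v (algebraMap K (v.adicCompletion K) y)) := by
    rw [map_mul (algebraMap K (v.adicCompletion K)) (3 * θ) (x * y), map_mul Valued.v,
      map_mul (algebraMap K (v.adicCompletion K)) x y, map_mul Valued.v]
  rw [map_mul (algebraMap K (v.adicCompletion K)) (3 * θ) x, map_mul Valued.v] at hg
  rw [map_mul (algebraMap K (v.adicCompletion K)) (3 * θ) y, map_mul Valued.v] at hk
  rw [e, e2]
  refine Valuation.map_add_le _ ?_ ?_
  · rw [map_mul, ← mul_assoc]
    gcongr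
  · rw [map_mul]
    calc Valued.v (g ^ 3) * Valued.v (algebraMap K (v.adicCompletion K) y - k ^ 3)
        ≤ Valued.v (algebraMap K (v.adicCompletion K) x) *
          (Valued.v (algebraMap K (v.adicCompletion K) (3 * θ)) *
            Valued.v (algebraMap K (v.adicCompletion K) y)) := by gcongr
      _ = _ := by rw [mul_left_comm]

theorem primaryAt_cube {v : HeightOneSpectrum (𝓞 K)} (θ x : K) : PrimaryAt v θ (x ^ 3) := by
  refine ⟨algebraMap K _ x, ?_⟩
  rw [map_pow, sub_self, map_zero]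
  exact zero_le

theorem PrimaryAt.pow {v : HeightOneSpectrum (𝓞 K)} {θ x : K}
    (hθ : Valued.v (algebraMap K (v.adicCompletion K) (3 * θ)) ≤ 1) (hx : PrimaryAt v θ x)
    (n : ℕ) : PrimaryAt v θ (x ^ n) := by
  induction n with
  | zero => simpa using primaryAt_cube (v := v) θ 1
  | succ n ih => rw [pow_succ]; exact ih.mul hθ hx

theorem GroupA.mul {a b : 𝓞 K} {x y : K} (hx : GroupA a b x) (hy : GroupA a b y) :
    GroupA a b (x * y) := by
  refine ⟨fun v hb => ?_, fun v h3 hb hD => (hx.2 v h3 hb hD).mul (hy.2 v h3 hb hD)⟩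
  obtain ⟨s, hs⟩ := hx.1 v hb
  obtain ⟨t, ht⟩ := hy.1 v hb
  exact ⟨s * t, by rw [map_mul, hs, ht, mul_pow]⟩

theorem groupA_cube {a b : 𝓞 K} (x : K) : GroupA a b (x ^ 3) :=
  ⟨fun v _ => ⟨v.valuation K x, by rw [map_pow]⟩, fun _ _ _ _ => cubeAt_cube x⟩

theorem GroupA.pow {a b : 𝓞 K} {x : K} (hx : GroupA a b x) (n : ℕ) : GroupA a b (x ^ n) := by
  induction n with
  | zero => simpa using groupA_cube (a := a) (b := b) (1 : K)
  | succ n ih => rw [pow_succ]; exact ih.mul hx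

theorem valued_three_theta (θ : 𝓞 K) (v : HeightOneSpectrum (𝓞 K)) :
    Valued.v (algebraMap K (v.adicCompletion K) (3 * algebraMap (𝓞 K) K θ)) ≤ 1 := by
  have e : (3 * algebraMap (𝓞 K) K θ : K) = algebraMap (𝓞 K) K (3 * θ) := by
    rw [map_mul, map_ofNat]
  rw [e]
  exact valued_int_le v _

theorem GroupB.mul {θ a b : 𝓞 K} {x y : K} (hx : GroupB θ a b x) (hy : GroupB θ a b y) :
    GroupB θ a b (x * y) := by
  refine ⟨fun v hD => ?_, fun v hD hb => (hx.2.1 v hD hb).mul (hy.2.1 v hD hb),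
    fun v h3 ha => (hx.2.2 v h3 ha).mul (valued_three_theta θ v) (hy.2.2 v h3 ha)⟩
  obtain ⟨s, hs⟩ := hx.1 v hD
  obtain ⟨t, ht⟩ := hy.1 v hD
  exact ⟨s * t, by rw [map_mul, hs, ht, mul_pow]⟩

theorem groupB_cube {θ a b : 𝓞 K} (x : K) : GroupB θ a b (x ^ 3) :=
  ⟨fun v _ => ⟨v.valuation K x, by rw [map_pow]⟩, fun _ _ _ => cubeAt_cube x,
    fun _ _ _ => primaryAt_cube _ x⟩

theorem GroupB.pow {θ a b : 𝓞 K} {x : K} (hx : GroupB θ a b x) (n : ℕ) :
    GroupB θ a b (x ^ n) := by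
  induction n with
  | zero => simpa using groupB_cube (θ := θ) (a := a) (b := b) (1 : K)
  | succ n ih => rw [pow_succ]; exact ih.mul hx

theorem InClasses.mul_left {F : Type*} [Field F] {S : Set F} {x d : F} (hx : x ∈ S)
    (h : InClasses S d) (n : ℕ) : InClasses S (x ^ n * d) := by
  obtain ⟨l, w, hl, hw, e⟩ := h
  refine ⟨List.replicate n x ++ l, w, fun z hz => ?_, hw, ?_⟩
  · rcases List.mem_append.1 hz with hz | hz
    · rw [List.eq_of_mem_replicate hz]
      exact hx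
    · exact hl z hz
  · rw [e, List.prod_append, List.prod_replicate, mul_assoc]

theorem InClasses.mul_cube {F : Type*} [Field F] {S : Set F} {d r : F} (hr : r ≠ 0)
    (h : InClasses S d) : InClasses S (d * r ^ 3) := by
  obtain ⟨l, w, hl, hw, e⟩ := h
  exact ⟨l, w * r, hl, mul_ne_zero hw hr, by rw [e]; ring⟩

theorem InClasses.one {F : Type*} [Field F] (S : Set F) : InClasses S 1 :=
  ⟨[], 1, by simp, one_ne_zero, by simp⟩

/-- A class of products of elements of a group. -/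
theorem groupA_of_inClasses {a b : 𝓞 K} {S : Set K} (hS : ∀ x ∈ S, GroupA a b x) {d : K}
    (h : InClasses S d) : GroupA a b d := by
  obtain ⟨l, w, hl, _, rfl⟩ := h
  refine GroupA.mul ?_ (groupA_cube w)
  induction l with
  | nil => simpa using groupA_cube (a := a) (b := b) (1 : K)
  | cons x l ih =>
    rw [List.prod_cons]
    exact (hS x (hl x List.mem_cons_self)).mul
      (ih fun y hy => hl y (List.mem_cons_of_mem _ hy))

theorem groupB_of_inClasses {θ a b : 𝓞 K} {S : Set K} (hS : ∀ x ∈ S, GroupB θ a b x) {d : K}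
    (h : InClasses S d) : GroupB θ a b d := by
  obtain ⟨l, w, hl, _, rfl⟩ := h
  refine GroupB.mul ?_ (groupB_cube w)
  induction l with
  | nil => simpa using groupB_cube (θ := θ) (a := a) (b := b) (1 : K)
  | cons x l ih =>
    rw [List.prod_cons]
    exact (hS x (hl x List.mem_cons_self)).mul
      (ih fun y hy => hl y (List.mem_cons_of_mem _ hy))

/-- If the ideal of x is one prime power with exponent prime to 3 and the valuation of d is
divisible by 3 outside x, then d x^j is a unit times a cube. -/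
theorem exists_pow_mul (hclass : ¬ 3 ∣ NumberField.classNumber K) {x : 𝓞 K} (hx0 : x ≠ 0)
    (hx : OnePlace x) {d : K} (hd : d ≠ 0)
    (h : ∀ v : HeightOneSpectrum (𝓞 K), x ∉ v.asIdeal → ∃ w, v.valuation K d = w ^ 3) :
    ∃ (j : ℕ) (u : (𝓞 K)ˣ) (r : K), r ≠ 0 ∧
      d * algebraMap (𝓞 K) K x ^ j = algebraMap (𝓞 K) K (u : 𝓞 K) * r ^ 3 := by
  have hinj := FaithfulSMul.algebraMap_injective (𝓞 K) K
  have hxK : algebraMap (𝓞 K) K x ≠ 0 := (map_ne_zero_iff _ hinj).2 hx0
  have key : ∃ j : ℕ, ∀ v : HeightOneSpectrum (𝓞 K),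
      ∃ w, v.valuation K (d * algebraMap (𝓞 K) K x ^ j) = w ^ 3 := by
    by_cases hex : ∃ v : HeightOneSpectrum (𝓞 K), x ∈ v.asIdeal
    · obtain ⟨v0, hv0⟩ := hex
      obtain ⟨hn, hu⟩ := hx v0 hv0
      obtain ⟨j, w, _, hjw⟩ := MP009fd8T.exists_pow_mul_cube
        (x := v0.valuation K d) (y := v0.valuation K (algebraMap (𝓞 K) K x))
        ((Valuation.ne_zero_iff _).2 hd) ((Valuation.ne_zero_iff _).2 hxK) hn
      refine ⟨j, fun v => ?_⟩
      by_cases hv : x ∈ v.asIdeal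
      · rw [hu v hv]
        exact ⟨w, by rw [map_mul, map_pow, hjw]⟩
      · obtain ⟨w', hw'⟩ := h v hv
        exact ⟨w', by rw [map_mul, map_pow, val_eq_one v hv, one_pow, mul_one, hw']⟩
    · push Not at hex
      exact ⟨0, fun v => by simpa using h v (hex v)⟩
  obtain ⟨j, hj⟩ := key
  obtain ⟨u, r, hr, e⟩ := MP009fd8T.exists_unit_mul_cube hclass _
    (mul_ne_zero hd (pow_ne_zero j hxK)) hj
  exact ⟨j, u, r, hr, e⟩

/-- From d x^j = u r^3, x in S and u in the classes of S, d is in the classes of S. -/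
theorem inClasses_of {F : Type*} [Field F] {S : Set F} {x d u r : F} {j : ℕ} (hxS : x ∈ S)
    (hx : x ≠ 0) (hr : r ≠ 0) (e : d * x ^ j = u * r ^ 3) (hu : InClasses S u) :
    InClasses S d := by
  have h1 := (hu.mul_cube (mul_ne_zero hr (inv_ne_zero (pow_ne_zero j hx)))).mul_left hxS (2 * j)
  have e1 : x ^ (2 * j) * (u * (r * (x ^ j)⁻¹) ^ 3) = d := by
    have e3 : d = (u * r ^ 3) * (x ^ j)⁻¹ := by
      rw [← e]; field_simp
    rw [e3, pow_mul']
    field_simp
  rwa [e1] at h1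

/-- Explicit families of every rank. Let the class number of K be prime to 3, let b and
D = a^3 - 27 b generate the unit ideal or prime powers with exponent prime to 3, let U be a set
of units u with b = a X Y - u X^3 - u^(-1) Y^3 for some X, Y in K, suppose that the units in the
first group are in the classes of b and U and that the units in the second group are cubes.
Then the classes of the locally soluble coverings are those of b and U, and they have points
over K, on the first side, and those of D on the second side. -/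
theorem explicit_rank {θ a b : 𝓞 K} (hθ : θ ^ 2 = -3) (hb : b ≠ 0) (hD : a ^ 3 - 27 * b ≠ 0)
    (hclass : ¬ 3 ∣ NumberField.classNumber K) (hb1 : OnePlace b)
    (hD1 : OnePlace (a ^ 3 - 27 * b)) (U : Set K)
    (hU : ∀ u ∈ U, (∃ s : (𝓞 K)ˣ, u = algebraMap (𝓞 K) K s) ∧
      ∃ X Y : K, algebraMap (𝓞 K) K b = algebraMap (𝓞 K) K a * X * Y - u * X ^ 3 - u⁻¹ * Y ^ 3)
    (huA : ∀ s : (𝓞 K)ˣ, GroupA a b (algebraMap (𝓞 K) K s) →
      InClasses (insert (algebraMap (𝓞 K) K b) U) (algebraMap (𝓞 K) K s))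
    (huB : ∀ s : (𝓞 K)ˣ, GroupB θ a b (algebraMap (𝓞 K) K s) →
      ∃ w : K, algebraMap (𝓞 K) K s = w ^ 3)
    (d : K) (hd : d ≠ 0) :
    ((LocSol K (algebraMap (𝓞 K) K a) (algebraMap (𝓞 K) K b) d ↔
        HasPoint (algebraMap (𝓞 K) K a) (algebraMap (𝓞 K) K b) d) ∧
      (LocSol K (algebraMap (𝓞 K) K a) (algebraMap (𝓞 K) K b) d ↔
        InClasses (insert (algebraMap (𝓞 K) K b) U) d)) ∧
    (LocSol K (algebraMap (𝓞 K) K (3 * a)) (algebraMap (𝓞 K) K (a ^ 3 - 27 * b)) d ↔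
      InClasses {algebraMap (𝓞 K) K (a ^ 3 - 27 * b)} d) := by
  have hinj := FaithfulSMul.algebraMap_injective (𝓞 K) K
  have hbK : algebraMap (𝓞 K) K b ≠ 0 := (map_ne_zero_iff _ hinj).2 hb
  have hDK : algebraMap (𝓞 K) K (a ^ 3 - 27 * b) ≠ 0 := (map_ne_zero_iff _ hinj).2 hD
  have hUp : ∀ u ∈ U, u ≠ 0 ∧
      HasPoint (algebraMap (𝓞 K) K a) (algebraMap (𝓞 K) K b) u := by
    intro u hu
    obtain ⟨⟨s, hs⟩, X, Y, hXY⟩ := hU u hu
    have hu0 : u ≠ 0 := by
      rw [hs]
      exact (map_ne_zero_iff _ hinj).2 s.ne_zero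
    refine ⟨hu0, X, Y, 1, Or.inr (Or.inr one_ne_zero), ?_⟩
    have h2 : u * u⁻¹ = 1 := mul_inv_cancel₀ hu0
    linear_combination u * hXY - Y ^ 3 * h2
  have hbA : GroupA a b (algebraMap (𝓞 K) K b) :=
    groupA_of_locSol hbK (hasPoint_B _ _).locSol
  have hDB : GroupB θ a b (algebraMap (𝓞 K) K (a ^ 3 - 27 * b)) :=
    groupB_of_locSol hθ hDK (hasPoint_B _ _).locSol
  have hSA : ∀ x ∈ insert (algebraMap (𝓞 K) K b) U, GroupA a b x := by
    rintro x (rfl | hx)
    · exact hbA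
    · exact groupA_of_locSol (hUp x hx).1 (hUp x hx).2.locSol
  have kA : ∀ d : K, d ≠ 0 → GroupA a b d →
      InClasses (insert (algebraMap (𝓞 K) K b) U) d := by
    intro d hd hdA
    obtain ⟨j, s, r, hr, e⟩ := exists_pow_mul hclass hb hb1 hd hdA.1
    refine inClasses_of (Set.mem_insert _ _) hbK hr e (huA s ?_)
    have h1 := (hdA.mul (hbA.pow j)).mul (groupA_cube r⁻¹)
    rw [e] at h1
    have e4 : algebraMap (𝓞 K) K (s : 𝓞 K) * r ^ 3 * r⁻¹ ^ 3 =
        algebraMap (𝓞 K) K (s : 𝓞 K) := by field_simp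
    rwa [e4] at h1
  have kB : ∀ d : K, d ≠ 0 → GroupB θ a b d →
      InClasses {algebraMap (𝓞 K) K (a ^ 3 - 27 * b)} d := by
    intro d hd hdB
    obtain ⟨j, s, r, hr, e⟩ := exists_pow_mul hclass hD hD1 hd hdB.1
    refine inClasses_of (Set.mem_singleton _) hDK hr e ?_
    obtain ⟨w, hw⟩ := huB s (by
      have h1 := (hdB.mul (hDB.pow j)).mul (groupB_cube r⁻¹)
      rw [e] at h1
      have e4 : algebraMap (𝓞 K) K (s : 𝓞 K) * r ^ 3 * r⁻¹ ^ 3 =
          algebraMap (𝓞 K) K (s : 𝓞 K) := by field_simp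
      rwa [e4] at h1)
    have hw0 : w ≠ 0 := by
      rintro rfl
      rw [zero_pow three_ne_zero] at hw
      exact s.ne_zero (hinj (by rw [hw, map_zero]))
    have h1 := (InClasses.one {algebraMap (𝓞 K) K (a ^ 3 - 27 * b)}).mul_cube hw0
    rwa [one_mul, ← hw] at h1
  have mA := sideA hb (S := insert (algebraMap (𝓞 K) K b) U) (a := a)
    (by
      rintro g (rfl | hg)
      · exact ⟨hbK, hasPoint_B _ _⟩
      · exact hUp g hg) kA d hd
  have mB := sideB hθ hD (Q := Set.univ) (S := {algebraMap (𝓞 K) K (a ^ 3 - 27 * b)})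
    (by
      rintro g rfl
      exact ⟨hDK, hasPoint_B _ _⟩)
    (fun d hd h => kB d hd h.2) d hd (Set.mem_univ d)
  refine ⟨⟨mA.1, fun h => kA d hd (mA.2.1 h), fun h => mA.2.2 (groupA_of_inClasses hSA h)⟩,
    ⟨fun h => kB d hd (mB.2.1 h), fun h => mB.2.2 (groupB_of_inClasses ?_ h)⟩⟩
  rintro x rfl
  exact hDB

end Pool.Agent.MP009fd8U
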