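import Pool.Agent.Lib.MP_009fd8_agU.Def

/-!
MP_009fd8_ag, 3-isogenies, leaf file: where B is a unit, a soluble covering has valuation
divisible by 3.
-/

namespace Pool.Agent.MP009fd8U

/-- In a sum of three terms with one of strictly largest valuation, the cube of the valuation of
the sum is larger than the product of the three valuations. -/
theorem no_dom {F : Type*} [Field F] {Γ : Type*} [LinearOrderedCommGroupWithZero Γ]
    (v : Valuation F Γ) {a b c e : F} (hs : a + b + c = e) (hb : v b < v a) (hc : v c < v a)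
    (he : v e ^ 3 ≤ v a * v b * v c) : False := by
  have ha0 : 0 < v a := lt_of_le_of_lt zero_le hb
  have h1 : v b * v c < v a * v a := by
    calc v b * v c ≤ v a * v c := mul_le_mul_left hb.le _
      _ < v a * v a := by
        rw [mul_comm (v a) (v c), mul_comm (v a) (v a)]
        exact mul_lt_mul_of_pos_right hc ha0
  have h2 : v a * v b * v c < v a ^ 3 := by
    calc v a * v b * v c = (v b * v c) * v a := by
          rw [mul_assoc, mul_comm]
      _ < (v a * v a) * v a := mul_lt_mul_of_pos_right h1 ha0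
      _ = v a ^ 3 := by rw [pow_succ, pow_two]
  have h3 : v e < v a := lt_of_pow_lt_pow_left₀ 3 zero_le (lt_of_le_of_lt he h2)
  have h4 : v a ≤ max (v e) (max (v b) (v c)) := by
    have h5 : a = e - (b + c) := by linear_combination hs
    calc v a = v (e - (b + c)) := congrArg v h5
      _ ≤ max (v e) (v (b + c)) := v.map_sub _ _
      _ ≤ max (v e) (max (v b) (v c)) := max_le_max le_rfl (v.map_add _ _)
  exact absurd h4 (not_le.2 (max_lt h3 (max_lt hb hc)))

/-- Let v A ≤ 1 and v B = 1. If C_d : d^2 X^3 + Y^3 + B d Z^3 = A d X Y Z has a point then v d is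
a cube in the value group.

Proof. Suppose not. Put t1 = v (d^2 X^3), t2 = v (Y^3), t3 = v (B d Z^3) = v d (v Z)^3. Two nonzero
ones among them are different: t1 = t2 gives (v d)^2 a cube, so v d = (v d)^3 / (v d)^2 a cube;
t1 = t3 gives v d = (v Z / v X)^3; t2 = t3 gives v d = (v Y / v Z)^3. Not all of X, Y, Z are 0, so
the largest one M of t1, t2, t3 is nonzero and attained once. The fourth term satisfies
v (A d X Y Z)^3 ≤ (v d)^3 (v X)^3 (v Y)^3 (v Z)^3 = t1 t2 t3 < M^3, so it is smaller than M too (or: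
it is at most (v d) v X v Y v Z). So the sum cannot be 0. -/
theorem cube_of_point {F : Type*} [Field F] {Γ : Type*} [LinearOrderedCommGroupWithZero Γ]
    (v : Valuation F Γ) {A B d : F} (hd : d ≠ 0) (hA : v A ≤ 1) (hB : v B = 1)
    (h : HasPoint A B d) : ∃ w, v d = w ^ 3 := by
  by_contra hno
  obtain ⟨X, Y, Z, h0, h1⟩ := h
  have hD : v d ≠ 0 := (v.ne_zero_iff).2 hd
  have e1 : v (d ^ 2 * X ^ 3) = v d ^ 2 * v X ^ 3 := by rw [map_mul, map_pow, map_pow]
  have e2 : v (Y ^ 3) = v Y ^ 3 := map_pow _ _ _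
  have e3 : v (B * d * Z ^ 3) = v d * v Z ^ 3 := by
    rw [map_mul, map_mul, map_pow, hB, one_mul]
  have e4 : v (A * d * X * Y * Z) ^ 3 ≤
      v (d ^ 2 * X ^ 3) * v (Y ^ 3) * v (B * d * Z ^ 3) := by
    rw [e1, e2, e3, map_mul, map_mul, map_mul, map_mul]
    calc (v A * v d * v X * v Y * v Z) ^ 3
        = v A ^ 3 * ((v d ^ 2 * v X ^ 3) * v Y ^ 3 * (v d * v Z ^ 3)) := by
          simp only [mul_pow, pow_succ, pow_zero, one_mul]
          ac_rfl
      _ ≤ 1 * ((v d ^ 2 * v X ^ 3) * v Y ^ 3 * (v d * v Z ^ 3)) :=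
          mul_le_mul_left (pow_le_one₀ zero_le hA) _
      _ = _ := one_mul _
  -- equalities between nonzero terms are impossible
  have q12 : v (d ^ 2 * X ^ 3) = v (Y ^ 3) → v (Y ^ 3) = 0 := by
    intro h
    by_contra hY0
    apply hno
    rw [e2] at hY0
    have hY : v Y ≠ 0 := fun h' => hY0 (by rw [h']; exact zero_pow (by norm_num))
    rw [e1, e2] at h
    refine ⟨v d * v X * (v Y)⁻¹, ?_⟩
    have hX : v X ≠ 0 := by
      intro h'
      rw [h', zero_pow (by norm_num), mul_zero] at h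
      exact hY0 h.symm
    rw [mul_pow, mul_pow, inv_pow, ← h, mul_inv]
    have hD2 : v d ^ 2 ≠ 0 := pow_ne_zero 2 hD
    have hX3 : v X ^ 3 ≠ 0 := pow_ne_zero 3 hX
    calc v d = v d * (v d ^ 2 * (v d ^ 2)⁻¹) * (v X ^ 3 * (v X ^ 3)⁻¹) := by
          rw [mul_inv_cancel₀ hD2, mul_inv_cancel₀ hX3, mul_one, mul_one]
      _ = v d ^ 3 * v X ^ 3 * ((v d ^ 2)⁻¹ * (v X ^ 3)⁻¹) := by
          rw [show v d ^ 3 = v d ^ 2 * v d from pow_succ _ _]
          ac_rfl
  have q13 : v (d ^ 2 * X ^ 3) = v (B * d * Z ^ 3) → v (B * d * Z ^ 3) = 0 := by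
    intro h
    by_contra hZ0
    apply hno
    rw [e3] at hZ0
    have hZ : v Z ≠ 0 := fun h' => hZ0 (by rw [h', zero_pow (by norm_num), mul_zero])
    rw [e1, e3] at h
    have hX : v X ≠ 0 := by
      intro h'
      rw [h', zero_pow (by norm_num), mul_zero] at h
      exact hZ0 h.symm
    have hX3 : v X ^ 3 ≠ 0 := pow_ne_zero 3 hX
    refine ⟨v Z * (v X)⁻¹, ?_⟩
    have h2 : v d * v X ^ 3 = v Z ^ 3 := by
      have h3 : v d * (v d * v X ^ 3) = v d * v Z ^ 3 := by
        rw [← mul_assoc, ← pow_two]; exact h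
      exact mul_left_cancel₀ hD h3
    rw [mul_pow, inv_pow, ← h2, mul_assoc, mul_inv_cancel₀ hX3, mul_one]
  have q23 : v (Y ^ 3) = v (B * d * Z ^ 3) → v (B * d * Z ^ 3) = 0 := by
    intro h
    by_contra hZ0
    apply hno
    rw [e3] at hZ0
    have hZ : v Z ≠ 0 := fun h' => hZ0 (by rw [h', zero_pow (by norm_num), mul_zero])
    have hZ3 : v Z ^ 3 ≠ 0 := pow_ne_zero 3 hZ
    rw [e2, e3] at h
    refine ⟨v Y * (v Z)⁻¹, ?_⟩
    rw [mul_pow, inv_pow, h, mul_assoc, mul_inv_cancel₀ hZ3, mul_one]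
  have z1 : v (d ^ 2 * X ^ 3) = 0 → X = 0 := by
    intro h
    have h2 := (v.zero_iff).1 h
    rcases mul_eq_zero.1 h2 with h3 | h3
    · exact absurd h3 (pow_ne_zero 2 hd)
    · exact (pow_eq_zero_iff (by norm_num)).1 h3
  have z2 : v (Y ^ 3) = 0 → Y = 0 := by
    intro h
    exact (pow_eq_zero_iff (by norm_num)).1 ((v.zero_iff).1 h)
  have z3 : v (B * d * Z ^ 3) = 0 → Z = 0 := by
    intro h
    rw [e3] at h
    rcases mul_eq_zero.1 h with h3 | h3
    · exact absurd h3 hD
    · exact (v.zero_iff).1 ((pow_eq_zero_iff (by norm_num)).1 h3)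
  have hall : ¬ (v (d ^ 2 * X ^ 3) = 0 ∧ v (Y ^ 3) = 0 ∧ v (B * d * Z ^ 3) = 0) := by
    rintro ⟨a1, a2, a3⟩
    rcases h0 with h | h | h
    · exact h (z1 a1)
    · exact h (z2 a2)
    · exact h (z3 a3)
  have s1 : d ^ 2 * X ^ 3 + Y ^ 3 + B * d * Z ^ 3 = A * d * X * Y * Z := h1
  generalize d ^ 2 * X ^ 3 = T1 at *
  generalize Y ^ 3 = T2 at *
  generalize B * d * Z ^ 3 = T3 at *
  generalize A * d * X * Y * Z = T4 at *
  -- the largest term
  rcases lt_trichotomy (v T1) (v T2) with a | a | a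
  · rcases lt_trichotomy (v T2) (v T3) with b | b | b
    · refine no_dom v (a := T3) (b := T1) (c := T2) (e := T4) (by rw [← s1]; ring)
        (a.trans b) b ?_
      calc v T4 ^ 3 ≤ v T1 * v T2 * v T3 := e4
        _ = v T3 * v T1 * v T2 := by ac_rfl
    · have h5 := q23 b
      rw [b, h5] at a
      exact absurd a (not_lt.2 zero_le)
    · refine no_dom v (a := T2) (b := T1) (c := T3) (e := T4) (by rw [← s1]; ring) a b ?_
      calc v T4 ^ 3 ≤ v T1 * v T2 * v T3 := e4
        _ = v T2 * v T1 * v T3 := by ac_rfl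
  · have h5 := q12 a
    rw [h5] at a
    have h6 : 0 < v T3 := by
      rcases eq_or_ne (v T3) 0 with h7 | h7
      · exact absurd ⟨a, h5, h7⟩ hall
      · exact zero_lt_iff.2 h7
    refine no_dom v (a := T3) (b := T1) (c := T2) (e := T4) (by rw [← s1]; ring)
      (by rw [a]; exact h6) (by rw [h5]; exact h6) ?_
    calc v T4 ^ 3 ≤ v T1 * v T2 * v T3 := e4
      _ = v T3 * v T1 * v T2 := by ac_rfl
  · rcases lt_trichotomy (v T1) (v T3) with b | b | b
    · refine no_dom v (a := T3) (b := T1) (c := T2) (e := T4) (by rw [← s1]; ring)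
        b (a.trans b) ?_
      calc v T4 ^ 3 ≤ v T1 * v T2 * v T3 := e4
        _ = v T3 * v T1 * v T2 := by ac_rfl
    · have h5 := q13 b
      rw [b, h5] at a
      exact absurd a (not_lt.2 zero_le)
    · exact no_dom v (a := T1) (b := T2) (c := T3) (e := T4) s1 a b e4

end Pool.Agent.MP009fd8U
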